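import Pool.Agent.H53.VS.Main
import Pool.Agent.H53.VA.Psd

/-!
Virtual Shephard groups of type `A`.
-/

set_option autoImplicit false

namespace Pool.Agent.H53.VS

open Pool.Agent.Helper741 Pool.Agent.TH107 CoxeterSystem Pool.Agent.X201.AT
open Pool.Agent.H53.VA Pool.Agent.R665.She
open Pool.Agent.R779.BC (ExtCl ext_hom)

variable {C : ∀ (G : Type) [Group G], Prop}

/-- configurations of pairs -/
theorem pairs_perm {K V : Type} [Finite K] (N : CoxeterMatrix K) (a b : K → V)
    (ha : Function.Injective a) (hb : Function.Injective b) (hab : ∀ i, b i ≠ a i)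
    (hne : ∀ i j, b i = a j → b j ≠ a i)
    (h3 : ∀ i j, i ≠ j → (b i = a j ∨ b j = a i) → N i j = 3)
    (h2 : ∀ i j, i ≠ j → ¬ (b i = a j ∨ b j = a i) → N i j = 2) :
    ∃ (L : Type) (_ : Finite L) (π : Equiv.Perm L) (f : K → L), (∀ x, π x ≠ x) ∧ (∀ x, π (π x) ≠ x) ∧
      Function.Injective f ∧ ∀ i j, permM π (f i) (f j) = N i j := by
  classical
  let D : Set K := {i | ∃ j, b i = a j}
  let R : Set K := {j | ∃ i, b i = a j}
  let nx : D → K := fun i => i.2.choose
  have hnx : ∀ i : D, b i = a (nx i) := fun i => i.2.choose_spec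
  have hcard : Nat.card (Dᶜ : Set K) = Nat.card (Rᶜ : Set K) := by
    let nD : D → R := fun i => ⟨nx i, i, hnx i⟩
    have hbij : Function.Bijective nD := by
      constructor
      · intro i j hij
        have h4 : nx i = nx j := congrArg Subtype.val hij
        apply Subtype.ext
        apply hb
        rw [hnx, hnx, h4]
      · rintro ⟨j, i, hij⟩
        refine ⟨⟨i, j, hij⟩, Subtype.ext (ha ?_)⟩
        show a (nx ⟨i, j, hij⟩) = a j
        rw [← hnx, ← hij]
    have h4 := Nat.card_congr (Equiv.ofBijective nD hbij)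
    have h5 := Set.ncard_add_ncard_compl D
    have h6 := Set.ncard_add_ncard_compl R
    rw [← Nat.card_coe_set_eq, ← Nat.card_coe_set_eq] at h5 h6
    omega
  let φ : (Dᶜ : Set K) ≃ (Rᶜ : Set K) := (Finite.card_eq.1 hcard).some
  let f : K ⊕ ((Dᶜ : Set K) ⊕ (Dᶜ : Set K)) → K ⊕ ((Dᶜ : Set K) ⊕ (Dᶜ : Set K)) :=
    Sum.elim (fun i => if h : i ∈ D then Sum.inl (nx ⟨i, h⟩) else Sum.inr (Sum.inl ⟨i, h⟩))
      (Sum.elim (fun i => Sum.inr (Sum.inr i)) (fun i => Sum.inl (φ i : K)))
  have f1 : ∀ i (h : i ∈ D), f (Sum.inl i) = Sum.inl (nx ⟨i, h⟩) := fun i h => dif_pos h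
  have f2 : ∀ i (h : i ∉ D), f (Sum.inl i) = Sum.inr (Sum.inl ⟨i, h⟩) := fun i h => dif_neg h
  have f3 : ∀ i, f (Sum.inr (Sum.inl i)) = Sum.inr (Sum.inr i) := fun i => rfl
  have f4 : ∀ i, f (Sum.inr (Sum.inr i)) = Sum.inl (φ i : K) := fun i => rfl
  have hR : ∀ (i : (Dᶜ : Set K)) (j : D), (φ i : K) ≠ nx j := fun i j h =>
    (φ i).2 (by rw [h]; exact ⟨j, hnx j⟩)
  have hf : Function.Injective f := by
    rintro (i | i | i) (j | j | j) hij
    · by_cases hi : i ∈ D
      · by_cases hj : j ∈ D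
        · rw [f1 i hi, f1 j hj] at hij
          have h4 := Sum.inl_injective hij
          have h5 : b i = b j := by
            rw [show b i = a (nx ⟨i, hi⟩) from hnx ⟨i, hi⟩, h4]
            exact (hnx ⟨j, hj⟩).symm
          rw [hb h5]
        · rw [f1 i hi, f2 j hj] at hij
          exact absurd hij (by simp)
      · by_cases hj : j ∈ D
        · rw [f2 i hi, f1 j hj] at hij
          exact absurd hij (by simp)
        · rw [f2 i hi, f2 j hj] at hij
          have h4 := Sum.inl_injective (Sum.inr_injective hij)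
          rw [show i = j from congrArg Subtype.val h4]
    · rw [f3] at hij
      by_cases hi : i ∈ D
      · rw [f1 i hi] at hij
        exact absurd hij (by simp)
      · rw [f2 i hi] at hij
        exact absurd (Sum.inr_injective hij) (by simp)
    · rw [f4] at hij
      by_cases hi : i ∈ D
      · rw [f1 i hi] at hij
        exact absurd (Sum.inl_injective hij).symm (hR j ⟨i, hi⟩)
      · rw [f2 i hi] at hij
        exact absurd hij (by simp)
    · rw [f3] at hij
      by_cases hj : j ∈ D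
      · rw [f1 j hj] at hij
        exact absurd hij (by simp)
      · rw [f2 j hj] at hij
        exact absurd (Sum.inr_injective hij) (by simp)
    · rw [f3, f3] at hij
      rw [Sum.inr_injective (Sum.inr_injective hij)]
    · rw [f3, f4] at hij
      exact absurd hij (by simp)
    · rw [f4] at hij
      by_cases hj : j ∈ D
      · rw [f1 j hj] at hij
        exact absurd (Sum.inl_injective hij) (hR i ⟨j, hj⟩)
      · rw [f2 j hj] at hij
        exact absurd hij (by simp)
    · rw [f3, f4] at hij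
      exact absurd hij (by simp)
    · rw [f4, f4] at hij
      have h4 := φ.injective (Subtype.ext (Sum.inl_injective hij))
      rw [h4]
  let π : Equiv.Perm (K ⊕ ((Dᶜ : Set K) ⊕ (Dᶜ : Set K))) :=
    Equiv.ofBijective f (Finite.injective_iff_bijective.1 hf)
  have p1 : ∀ x, π x ≠ x := by
    rintro (i | i | i) h
    · change f (Sum.inl i) = _ at h
      by_cases hi : i ∈ D
      · rw [f1 i hi] at h
        have h4 : b i = a i := by
          rw [show b i = a (nx ⟨i, hi⟩) from hnx ⟨i, hi⟩, Sum.inl_injective h]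
        exact hab i h4
      · rw [f2 i hi] at h
        exact absurd h (by simp)
    · change f (Sum.inr (Sum.inl i)) = _ at h
      rw [f3] at h
      exact absurd (Sum.inr_injective h) (by simp)
    · change f (Sum.inr (Sum.inr i)) = _ at h
      rw [f4] at h
      exact absurd h (by simp)
  have p2 : ∀ x, π (π x) ≠ x := by
    rintro (i | i | i) h
    · change f (f (Sum.inl i)) = _ at h
      by_cases hi : i ∈ D
      · rw [f1 i hi] at h
        by_cases hj : nx ⟨i, hi⟩ ∈ D
        · rw [f1 _ hj] at h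
          refine hne i (nx ⟨i, hi⟩) (hnx ⟨i, hi⟩) ?_
          rw [show b (nx ⟨i, hi⟩) = a (nx ⟨nx ⟨i, hi⟩, hj⟩) from hnx ⟨nx ⟨i, hi⟩, hj⟩,
            Sum.inl_injective h]
        · rw [f2 _ hj] at h
          exact absurd h (by simp)
      · rw [f2 i hi, f3] at h
        exact absurd h (by simp)
    · change f (f (Sum.inr (Sum.inl i))) = _ at h
      rw [f3, f4] at h
      exact absurd h (by simp)
    · change f (f (Sum.inr (Sum.inr i))) = _ at h
      rw [f4] at h
      by_cases hj : (φ i : K) ∈ D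
      · rw [f1 _ hj] at h
        exact absurd h (by simp)
      · rw [f2 _ hj] at h
        exact absurd (Sum.inr_injective h) (by simp)
  have hπ : ∀ i j : K, π (Sum.inl i) = Sum.inl j ↔ b i = a j := by
    intro i j
    show f (Sum.inl i) = Sum.inl j ↔ _
    constructor
    · intro h
      by_cases hi : i ∈ D
      · rw [f1 i hi] at h
        rw [show b i = a (nx ⟨i, hi⟩) from hnx ⟨i, hi⟩, Sum.inl_injective h]
      · rw [f2 i hi] at h
        exact absurd h (by simp)
    · intro h
      have hi : i ∈ D := ⟨j, h⟩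
      rw [f1 i hi]
      congr 1
      apply ha
      rw [← h]
      exact (hnx ⟨i, hi⟩).symm
  refine ⟨_, inferInstance, π, Sum.inl, p1, p2, Sum.inl_injective, fun i j => ?_⟩
  rw [permM_apply, hπ, hπ]
  by_cases hij : i = j
  · subst hij
    rw [if_pos rfl]
    exact (N.diagonal i).symm
  · rw [if_neg fun h => hij (Sum.inl_injective h)]
    by_cases h4 : b i = a j ∨ b j = a i
    · rw [if_pos h4, h3 i j hij h4]
    · rw [if_neg h4, h2 i j hij h4]

/-- configurations of type `A` -/
theorem conf_A {n : ℕ} {W : Type} [Group W] (cs : CoxeterSystem (CoxeterMatrix.A n) W) {K : Type}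
    [Finite K] (N : CoxeterMatrix K) (r : K → (Fin n → ℝ)) (hr : Conf cs N r) :
    ∃ (L : Type) (_ : Finite L) (π : Equiv.Perm L) (f : K → L), (∀ x, π x ≠ x) ∧ (∀ x, π (π x) ≠ x) ∧
      Function.Injective f ∧ ∀ i j, permM π (f i) (f j) = N i j := by
  have hroot : ∀ i, ∃ a b : Fin (n + 1), a ≠ b ∧ LL n (r i) = pr n a b := by
    intro i
    obtain ⟨w, s, t, -, -, h1, -⟩ := hr i i
    rw [h1]
    exact root_pr cs w s
  choose a b hab hL using hroot
  have hval : ∀ i j, i ≠ j → (N i j = 2 ∧ ∑ k, pr n (a i) (b i) k * pr n (a j) (b j) k = 0) ∨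
      (N i j = 3 ∧ ∑ k, pr n (a i) (b i) k * pr n (a j) (b j) k = -1) := by
    intro i j hij
    obtain ⟨w, s, t, h1, h2, h3, h4⟩ := hr i j
    have hst : s ≠ t := by
      rintro rfl
      have h5 := N.off_diagonal i j hij
      rw [h1] at h5
      exact h5 ((CoxeterMatrix.A n).diagonal s)
    have h5 : bil (CoxeterMatrix.A n) (r i) (r j) = -2 * cc (CoxeterMatrix.A n) s t := by
      rw [h3, h4, bil_geo, bil_ee_left, coroot_ee]
    rw [bil_A, hL, hL] at h5
    rw [h5, h1]
    unfold cc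
    rw [A_apply, if_neg hst]
    by_cases h6 : (t : ℕ) + 1 = s ∨ (s : ℕ) + 1 = t
    · right
      rw [if_pos h6]
      refine ⟨rfl, ?_⟩
      have h6 : Real.cos (Real.pi / ((3 : ℕ) : ℝ)) = 1 / 2 := by
        push_cast
        exact Real.cos_pi_div_three
      rw [h6]
      norm_num
    · left
      rw [if_neg h6]
      refine ⟨rfl, ?_⟩
      have h6 : Real.cos (Real.pi / ((2 : ℕ) : ℝ)) = 0 := by
        push_cast
        exact Real.cos_pi_div_two
      rw [h6]
      norm_num
  have hac : ∀ i j, i ≠ j → a i ≠ a j := by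
    intro i j hij h
    have h1 : a i ≠ b j := by rw [h]; exact hab j
    have h2 : b i ≠ a j := by rw [← h]; exact (hab i).symm
    have h3 := pr_pr (a i) (b i) (a j) (b j)
    rw [if_pos h, if_neg h1, if_neg h2] at h3
    rcases hval i j hij with ⟨-, h4⟩ | ⟨-, h4⟩ <;> rw [h4] at h3 <;> split_ifs at h3 <;> norm_num at h3
  have hbd : ∀ i j, i ≠ j → b i ≠ b j := by
    intro i j hij h
    have h1 : a i ≠ b j := by rw [← h]; exact hab i
    have h2 : b i ≠ a j := by rw [h]; exact (hab j).symm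
    have h3 := pr_pr (a i) (b i) (a j) (b j)
    rw [if_pos h, if_neg h1, if_neg h2] at h3
    rcases hval i j hij with ⟨-, h4⟩ | ⟨-, h4⟩ <;> rw [h4] at h3 <;> split_ifs at h3 <;> norm_num at h3
  refine pairs_perm N a b (fun i j h => by_contra fun h' => hac i j h' h)
    (fun i j h => by_contra fun h' => hbd i j h' h) (fun i => (hab i).symm) ?_ ?_ ?_
  · intro i j h1 h2
    have hij : i ≠ j := by
      rintro rfl
      exact hab i h1.symm
    have h3 := pr_pr (a i) (b i) (a j) (b j)
    rw [if_neg (hac i j hij), if_pos h2.symm, if_pos h1, if_neg (hbd i j hij)] at h3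
    rcases hval i j hij with ⟨-, h4⟩ | ⟨-, h4⟩ <;> rw [h4] at h3 <;> norm_num at h3
  · intro i j hij h1
    rcases hval i j hij with ⟨-, h4⟩ | ⟨h5, -⟩
    · exfalso
      have h3 := pr_pr (a i) (b i) (a j) (b j)
      rw [h4, if_neg (hac i j hij), if_neg (hbd i j hij)] at h3
      rcases h1 with h1 | h1
      · rw [if_pos h1] at h3
        split_ifs at h3 <;> norm_num at h3
      · rw [if_pos h1.symm] at h3
        split_ifs at h3 <;> norm_num at h3
    · exact h5
  · intro i j hij h1
    rcases hval i j hij with ⟨h5, -⟩ | ⟨-, h4⟩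
    · exact h5
    · exfalso
      have h3 := pr_pr (a i) (b i) (a j) (b j)
      rw [h4, if_neg (hac i j hij), if_neg (hbd i j hij), if_neg fun h => h1 (Or.inr h.symm),
        if_neg fun h => h1 (Or.inl h)] at h3
      norm_num at h3


/-- irreducible configurations of type `A` are parts of cycles -/
theorem irr_cyc {K L : Type} [Finite L] (N : CoxeterMatrix K) (hI : IrrM N) (x : K)
    (π : Equiv.Perm L) (f : K → L) (h1 : ∀ x, π x ≠ x) (h2 : ∀ x, π (π x) ≠ x)
    (hf : Function.Injective f) (hN : ∀ i j, permM π (f i) (f j) = N i j) :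
    ∃ (m : ℕ) (g : K → ZMod m), 3 ≤ m ∧ Function.Injective g ∧ ∀ i j, cyc m (g i) (g j) = N i j := by
  classical
  let X : Set L := {y | ∃ k : ℤ, (π ^ k) (f x) = y}
  have hX1 : ∀ y, π y ∈ X ↔ y ∈ X := by
    intro y
    constructor
    · rintro ⟨k, hk⟩
      refine ⟨-1 + k, ?_⟩
      rw [zpow_add, Equiv.Perm.mul_apply, hk, zpow_neg_one]
      exact π.symm_apply_apply y
    · rintro ⟨k, hk⟩
      refine ⟨1 + k, ?_⟩
      rw [zpow_add, Equiv.Perm.mul_apply, hk, zpow_one]
  have hx : f x ∈ X := ⟨0, by simp⟩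
  have hall : ∀ i, f i ∈ X := by
    by_contra hcon
    push Not at hcon
    obtain ⟨i0, hi0⟩ := hcon
    obtain ⟨i, hi, j, hj, hij⟩ := hI (f ⁻¹' X) ⟨x, hx⟩ ⟨i0, hi0⟩
    apply hij
    rw [← hN, permM_apply]
    have hne : f i ≠ f j := fun h => hj (show f j ∈ X from h ▸ hi)
    rw [if_neg hne, if_neg]
    rintro (h3 | h3)
    · exact hj (show f j ∈ X from h3 ▸ (hX1 _).2 hi)
    · exact hj ((hX1 (f j)).1 (h3.symm ▸ hi))
  let m := MulAction.period π (f x)
  have hm0 : m ≠ 0 := (MulAction.period_pos_of_orderOf_pos (isOfFinOrder_iff_pow_eq_one.2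
    ⟨orderOf π, orderOf_pos π, pow_orderOf_eq_one π⟩).orderOf_pos (f x)).ne'
  have hm1 : m ≠ 1 := by
    intro h
    have h3 := MulAction.pow_period_smul π (f x)
    rw [show MulAction.period π (f x) = 1 from h, pow_one] at h3
    exact h1 (f x) h3
  have hm2 : m ≠ 2 := by
    intro h
    have h3 := MulAction.pow_period_smul π (f x)
    rw [show MulAction.period π (f x) = 2 from h, pow_two] at h3
    exact h2 (f x) h3
  have hm : 3 ≤ m := by omega
  let k : K → ℤ := fun y => (hall y).choose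
  have hk : ∀ y : K, (π ^ k y) (f x) = f y := fun y => (hall y).choose_spec
  have heq : ∀ y z : K, ((k y : ℤ) : ZMod m) = k z ↔ y = z := by
    intro y z
    rw [← zp_eq π (f x), hk, hk]
    exact hf.eq_iff
  have hsucc : ∀ y z : K, ((k y : ℤ) : ZMod m) + 1 = k z ↔ π (f y) = f z := by
    intro y z
    have h3 : ((k y : ℤ) : ZMod m) + 1 = ((1 + k y : ℤ) : ZMod m) := by push_cast; ring
    rw [h3, ← zp_eq π (f x), zpow_add, Equiv.Perm.mul_apply, hk, hk, zpow_one]
  refine ⟨m, fun y => ((k y : ℤ) : ZMod m), hm, fun y z hyz => (heq y z).1 hyz, fun y z => ?_⟩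
  rw [cyc_apply, ← hN, permM_apply]
  by_cases h3 : y = z
  · rw [if_pos ((heq y z).2 h3), if_pos (congrArg f h3)]
  · rw [if_neg fun h6 => h3 ((heq y z).1 h6), if_neg fun h6 => h3 (hf h6)]
    by_cases h4 : π (f y) = f z ∨ π (f z) = f y
    · rw [if_pos h4, if_pos (h4.imp (hsucc y z).2 (hsucc z y).2)]
    · rw [if_neg h4, if_neg fun h6 => h4 (h6.imp (hsucc y z).1 (hsucc z y).1)]

/-- **type `A`** -/
theorem vs_A (hC : ExtCl C)
    (hcox : ∀ (B : Type) [Finite B] (M : CoxeterMatrix B), C M.Group) (c : ℕ) (hc : Even c)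
    (hcyc : ∀ n : ℕ, 3 ≤ n → C (Sh (cyc n) fun _ => c)) (n : ℕ) :
    C (VirtualShephard (CoxeterMatrix.A n) fun _ => c) := by
  rw [vs_conf (fun _ => c) hC hcox ⟨fun _ => hc, fun _ _ _ => rfl⟩]
  intro K _ N q r hr hI
  obtain ⟨L, _, π, f, h1, h2, h3, h4⟩ := conf_A (CoxeterMatrix.A n).toCoxeterSystem N r hr.conf
  rcases isEmpty_or_nonempty K with hK | ⟨⟨x⟩⟩
  · exact hC.sub _ _ (hmS (fun k : K => isEmptyElim k) (fun i => isEmptyElim i)
      (fun i => isEmptyElim i)) (hmS_inj (M₂ := cyc 3) (p₂ := fun _ => c)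
      ⟨fun _ => hc, fun _ _ _ => rfl⟩ _ (fun i => isEmptyElim i) _ _) (hcyc 3 le_rfl)
  obtain ⟨m, g, h5, h6, h7⟩ := irr_cyc N hI x π f h1 h2 h3 h4
  have hq : ∀ i, c = q i := by
    intro i
    obtain ⟨w, s, t, -, -, h8, -⟩ := hr i i
    exact h8.symm
  exact hC.sub _ _ (hmS g h7 hq) (hmS_inj ⟨fun _ => hc, fun _ _ _ => rfl⟩ g h6 h7 hq) (hcyc m h5)

end Pool.Agent.H53.VS
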