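import Pool.Agent.H53.VS.FMain
import Pool.Agent.H53.VS.TypeA

/-!
Virtual Shephard groups in classes closed under extensions: the same interface as for the classes with
the closure properties of the Farrell–Jones groups.
-/

set_option autoImplicit false

namespace Pool.Agent.H53.VS.E

open Pool.Agent.Helper741 Pool.Agent.TH107 CoxeterSystem Pool.Agent.X201.AT
open Pool.Agent.H53.VA Pool.Agent.R665.She
open Pool.Agent.H53.VS
open Pool.Agent.R779.BC (ExtCl ext_hom)

variable {C : ∀ (G : Type) [Group G], Prop}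

section main

variable {B : Type} {M : CoxeterMatrix B} [Fintype B] [DecidableEq B] (p : B → ℕ)

/-- **the criterion** -/
theorem vs_conf (hC : ExtCl C)
    (hcox : ∀ (B : Type) [Finite B] (M : CoxeterMatrix B), C M.Group) (hg : Good M p) :
    C (VirtualShephard M p) ↔ ∀ (K : Type) [Finite K] (N : CoxeterMatrix K) (q : K → ℕ)
      (r : K → (B → ℝ)), ConfS M.toCoxeterSystem p N q r → IrrM N → C (Sh N q) :=
  Pool.Agent.H53.VS.vs_conf p hC hcox hg

/-- the Shephard groups of configurations are subgroups -/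
theorem sh_of_conf (hC : ExtCl C)
    (hcox : ∀ (B : Type) [Finite B] (M : CoxeterMatrix B), C M.Group) (hg : Good M p)
    (h : C (VirtualShephard M p)) {K : Type} (N : CoxeterMatrix K) (q : K → ℕ) (r : K → (B → ℝ))
    (hr : ConfS M.toCoxeterSystem p N q r) : C (Sh N q) := by
  rw [vs_sh M.toCoxeterSystem p hC (hcox B M) hg] at h
  exact Pool.Agent.H53.VS.sh_of_conf M.toCoxeterSystem p hC hg h N q r hr

/-- the Shephard group is a subgroup -/
theorem sh_of_vs (hC : ExtCl C)
    (hcox : ∀ (B : Type) [Finite B] (M : CoxeterMatrix B), C M.Group) (hg : Good M p)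
    (h : C (VirtualShephard M p)) : C (Sh M p) := Pool.Agent.H53.VS.sh_of_vs p hC hcox hg h

/-- **rank two** -/
theorem vs_rank_two (hC : ExtCl C) (hfin : ∀ (G : Type) [Group G] [Finite G], C G)
    (hcox : ∀ (B : Type) [Finite B] (M : CoxeterMatrix B), C M.Group) (hg : Good M p)
    (hB : Fintype.card B ≤ 2) (h3 : ∀ i j, M i j ≠ 3) : C (VirtualShephard M p) := by
  refine vs_loc p hC hfin hcox hg fun N r hr => ?_
  obtain ⟨s, t, hst, h0, h1, h2⟩ := F.conf_val M.toCoxeterSystem N r hr 0 1 (by decide)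
  by_cases hm : M s t = 2
  · exact Or.inl (h1.trans hm)
  · exfalso
    have hone : M s t ≠ 1 := M.off_diagonal s t hst
    have h4 : 3 < M s t := by
      have := h3 s t
      omega
    obtain ⟨s', t', hst', -, -, h2'⟩ := F.conf_val M.toCoxeterSystem N r hr 0 2 (by decide)
    obtain ⟨s'', t'', hst'', -, -, h2''⟩ := F.conf_val M.toCoxeterSystem N r hr 1 2 (by decide)
    rw [F.rank_two_label (M := M) hB hst' hst] at h2'
    rw [F.rank_two_label (M := M) hB hst'' hst] at h2''
    have hpos : (0 : ℝ) < M s t := by exact_mod_cast (by omega : 0 < M s t)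
    have hcos : 1 / 2 < Real.cos (Real.pi / (M s t : ℝ)) := by
      rw [← Real.cos_pi_div_three]
      apply Real.cos_lt_cos_of_nonneg_of_le_pi_div_two
      · positivity
      · have := Real.pi_pos
        linarith
      · apply div_lt_div_of_pos_left Real.pi_pos (by norm_num)
        exact_mod_cast h4
    exact F.gram M hB (r 0) (r 1) (r 2) (Real.cos (Real.pi / (M s t : ℝ))) hcos.ne'
      (by intro h; rw [h] at hcos; norm_num at hcos)
      (F.conf_self M.toCoxeterSystem N r hr 0) (F.conf_self M.toCoxeterSystem N r hr 1)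
      (F.conf_self M.toCoxeterSystem N r hr 2) h2 h2' h2''

end main

/-- **type `A`** -/
theorem vs_A (hC : ExtCl C)
    (hcox : ∀ (B : Type) [Finite B] (M : CoxeterMatrix B), C M.Group) (c : ℕ) (hc : Even c)
    (hcyc : ∀ n : ℕ, 3 ≤ n → C (Sh (cyc n) fun _ => c)) (n : ℕ) :
    C (VirtualShephard (CoxeterMatrix.A n) fun _ => c) := Pool.Agent.H53.VS.vs_A hC hcox c hc hcyc n

/-- the converse -/
theorem cyc_of_vs (hC : ExtCl C)
    (hcox : ∀ (B : Type) [Finite B] (M : CoxeterMatrix B), C M.Group) (c : ℕ) (hc : Even c)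
    (n : ℕ) (hn : 2 ≤ n) (h : C (VirtualShephard (CoxeterMatrix.A n) fun _ => c)) :
    C (Sh (cyc (n + 1)) fun _ => c) := by
  obtain ⟨r, hr⟩ := cyc_conf (CoxeterMatrix.A n).toCoxeterSystem hn c
  exact sh_of_conf (fun _ => c) hC hcox ⟨fun _ => hc, fun _ _ _ => rfl⟩ h _ _ r hr

theorem vs_A_iff (hC : ExtCl C)
    (hcox : ∀ (B : Type) [Finite B] (M : CoxeterMatrix B), C M.Group) (c : ℕ) (hc : Even c) :
    (∀ n : ℕ, C (VirtualShephard (CoxeterMatrix.A n) fun _ => c)) ↔
      ∀ n : ℕ, 3 ≤ n → C (Sh (cyc n) fun _ => c) := by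
  refine ⟨fun h n hn => ?_, fun h => vs_A hC hcox c hc h⟩
  obtain ⟨m, rfl⟩ := Nat.exists_eq_add_of_le' (by omega : 1 ≤ n)
  exact cyc_of_vs hC hcox c hc m (by omega) (h m)

theorem vs_A_two (hC : ExtCl C)
    (hcox : ∀ (B : Type) [Finite B] (M : CoxeterMatrix B), C M.Group) (c : ℕ) (hc : Even c) :
    C (VirtualShephard (CoxeterMatrix.A 2) fun _ => c) ↔ C (Sh (cyc 3) fun _ => c) := by
  refine ⟨cyc_of_vs hC hcox c hc 2 le_rfl, fun h => ?_⟩
  rw [vs_conf (fun _ => c) hC hcox ⟨fun _ => hc, fun _ _ _ => rfl⟩]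
  intro K _ N q r hr _
  obtain ⟨g, h6, h7⟩ := conf_A_two (CoxeterMatrix.A 2).toCoxeterSystem N r hr.conf
  have hq : ∀ i, c = q i := by
    intro i
    obtain ⟨w, s, t, -, -, h8, -⟩ := hr i i
    exact h8.symm
  exact hC.sub _ _ (hmS g h7 hq) (hmS_inj ⟨fun _ => hc, fun _ _ _ => rfl⟩ g h6 h7 hq) h

end Pool.Agent.H53.VS.E
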