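import Pool.Agent.H53.VS.AConv

/-!
Virtual Shephard groups in classes with the closure properties of the Farrell–Jones groups.
-/

set_option autoImplicit false

namespace Pool.Agent.H53.VS.F

open Pool.Agent.Helper741 Pool.Agent.TH107 CoxeterSystem Pool.Agent.X201.AT
open Pool.Agent.H53.VA Pool.Agent.R665.She
open Pool.Agent.Y110.FJ Pool.Agent.H53.VS

variable {C : ∀ (G : Type) [Group G], Prop}

section

variable {B : Type} {M : CoxeterMatrix B} [Fintype B] [DecidableEq B]
variable {W : Type} [Group W] (cs : CoxeterSystem M W) (p : B → ℕ)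

/-- the Shephard group on the roots -/
theorem vs_sh (hC : ClosedE C) (hcox : ∀ (B : Type) [Finite B] (M : CoxeterMatrix B), C M.Group)
    (hW : C W) (hg : Good M p) :
    C (VirtualShephard M p) ↔ C (Sh (hat cs) (ro cs p)) := by
  constructor
  · intro h
    refine hC.base.of_injective _ _ ((vsEquiv cs p hg).symm.toMonoidHom.comp
      (SemidirectProduct.inl (φ := actS cs p hg))) ?_ h
    exact (vsEquiv cs p hg).symm.injective.comp SemidirectProduct.inl_injective
  · intro h
    refine hC.base.of_injective _ _ (vsEquiv cs p hg).toMonoidHom (vsEquiv cs p hg).injective ?_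
    let N := (SemidirectProduct.inl (φ := actS cs p hg)).range
    have hN : N = (SemidirectProduct.rightHom (φ := actS cs p hg)).ker :=
      SemidirectProduct.range_inl_eq_ker_rightHom
    have hNn : N.Normal := by
      rw [hN]
      infer_instance
    let e : Sh (hat cs) (ro cs p) ≃* N := MonoidHom.ofInjective SemidirectProduct.inl_injective
    refine she_ext hC hcox (hat cs) (ro cs p) (good_hat cs p hg) (fun T _ => ?_) _ N e ?_ ?_
    · exact hC.base.of_injective _ _ (hmS (fun t : (T : Set (Rt cs)) => t.1) (fun _ _ => rfl)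
        (fun _ => rfl)) (hmS_inj (good_hat cs p hg) _ Subtype.val_injective _ _) h
    · refine hC.base.of_injective _ _ (QuotientGroup.lift N SemidirectProduct.rightHom ?_) ?_ hW
      · intro x hx
        rw [hN] at hx
        exact hx
      · rw [injective_iff_map_eq_one]
        intro x hx
        obtain ⟨y, rfl⟩ := QuotientGroup.mk_surjective x
        rw [QuotientGroup.lift_mk] at hx
        rw [QuotientGroup.eq_one_iff, hN]
        exact hx
    · intro γ
      refine ⟨actR cs γ.right, SemidirectProduct.inl γ.left, ⟨_, rfl⟩,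
        fun i j => lb_act cs γ.right i j, fun i => ro_act cs p hg γ.right i, fun i => ?_⟩
      show γ * SemidirectProduct.inl (Sh.gen (hat cs) (ro cs p) i) * γ⁻¹ =
        SemidirectProduct.inl γ.left *
          SemidirectProduct.inl (Sh.gen (hat cs) (ro cs p) (actR cs γ.right i)) *
          (SemidirectProduct.inl γ.left)⁻¹
      have h1 : (actS cs p hg γ.right) (Sh.gen (hat cs) (ro cs p) i) =
          Sh.gen (hat cs) (ro cs p) (actR cs γ.right i) := actS_gen cs p hg γ.right i
      rw [← h1, SemidirectProduct.inl_aut, map_inv]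
      conv_lhs => rw [← SemidirectProduct.inl_left_mul_inr_right γ]
      rw [mul_inv_rev]
      simp only [mul_assoc]

/-- finite configurations, not necessarily irreducible -/
theorem conf_red (hC : ClosedE C)
    (hcox : ∀ (B : Type) [Finite B] (M : CoxeterMatrix B), C M.Group) (hg : Good M p)
    (h : ∀ (K : Type) [Finite K] (N : CoxeterMatrix K) (q : K → ℕ)
      (r : K → (B → ℝ)), ConfS cs p N q r → IrrM N → C (Sh N q)) (K : Type) (N : CoxeterMatrix K)
    (q : K → ℕ) (r : K → (B → ℝ)) (hr : ConfS cs p N q r) : C (Sh N q) := by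
  refine she_irr hC hcox N q (hr.good cs p hg) fun T _ hI => ?_
  have : Finite ((T : Set K) : Type) := T.finite_toSet.to_subtype
  refine h _ (subM N (T : Set K)) (fun t => q t.1) (fun t => r t.1) (fun i j => hr i.1 j.1) ?_
  intro X hX hX'
  obtain ⟨i, ⟨i', hi, rfl⟩, j, hj, hij⟩ := hI (Subtype.val '' X) (by
    rintro _ ⟨x, -, rfl⟩
    exact x.2) (hX.image _) (by
      obtain ⟨y, hy⟩ := hX'
      refine ⟨y.1, y.2, ?_⟩
      rintro ⟨z, hz, hzy⟩
      exact hy (by rwa [← Subtype.ext hzy]))
  exact ⟨i', hi, ⟨j, hj.1⟩, fun h' => hj.2 ⟨_, h', rfl⟩, hij⟩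

end

section main

variable {B : Type} {M : CoxeterMatrix B} [Fintype B] [DecidableEq B] (p : B → ℕ)

/-- **the criterion** -/
theorem vs_conf (hC : ClosedE C)
    (hcox : ∀ (B : Type) [Finite B] (M : CoxeterMatrix B), C M.Group) (hg : Good M p) :
    C (VirtualShephard M p) ↔ ∀ (K : Type) [Finite K] (N : CoxeterMatrix K) (q : K → ℕ)
      (r : K → (B → ℝ)), ConfS M.toCoxeterSystem p N q r → IrrM N → C (Sh N q) := by
  rw [vs_sh M.toCoxeterSystem p hC hcox (hcox B M) hg]
  constructor
  · intro h K _ N q r hr _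
    obtain ⟨f, h1, h2, h3⟩ := conf_emb M.toCoxeterSystem p hg N q r hr
    exact hC.base.of_injective _ _ (hmS f h2 h3)
      (hmS_inj (good_hat M.toCoxeterSystem p hg) f h1 h2 h3) h
  · intro h
    refine she_mem hC hcox _ _ (good_hat M.toCoxeterSystem p hg) fun T hT => ?_
    refine conf_red M.toCoxeterSystem p hC hcox hg h _ _ _ (fun t => t.1.1) ?_
    intro i j
    have h2 : lb M.toCoxeterSystem i.1 j.1 ≠ 0 := hT i.1 i.2 j.1 j.2
    obtain ⟨w, s, t, e1, e2, e3⟩ := lb_ne_zero M.toCoxeterSystem h2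
    refine ⟨w, s, t, e3, h2, ?_, ?_, congrArg Subtype.val e1, congrArg Subtype.val e2⟩
    · show ro M.toCoxeterSystem p i.1 = p s
      rw [e1, ro_mkR M.toCoxeterSystem p hg]
    · show ro M.toCoxeterSystem p j.1 = p t
      rw [e2, ro_mkR M.toCoxeterSystem p hg]

/-- the Shephard groups of configurations are subgroups -/
theorem sh_of_conf (hC : ClosedE C)
    (hcox : ∀ (B : Type) [Finite B] (M : CoxeterMatrix B), C M.Group) (hg : Good M p)
    (h : C (VirtualShephard M p)) {K : Type} (N : CoxeterMatrix K) (q : K → ℕ) (r : K → (B → ℝ))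
    (hr : ConfS M.toCoxeterSystem p N q r) : C (Sh N q) := by
  rw [vs_sh M.toCoxeterSystem p hC hcox (hcox B M) hg] at h
  obtain ⟨f, h1, h2, h3⟩ := conf_emb M.toCoxeterSystem p hg N q r hr
  exact hC.base.of_injective _ _ (hmS f h2 h3)
    (hmS_inj (good_hat M.toCoxeterSystem p hg) f h1 h2 h3) h

/-- the Shephard group is a subgroup -/
theorem sh_of_vs (hC : ClosedE C)
    (hcox : ∀ (B : Type) [Finite B] (M : CoxeterMatrix B), C M.Group) (hg : Good M p)
    (h : C (VirtualShephard M p)) : C (Sh M p) := by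
  rw [vs_sh M.toCoxeterSystem p hC hcox (hcox B M) hg] at h
  exact hC.base.of_injective _ _ (hmS (mkR M.toCoxeterSystem 1)
    (fun i j => lb_mkR M.toCoxeterSystem 1 i j) (fun i => ro_mkR M.toCoxeterSystem p hg 1 i))
    (hmS_inj (good_hat M.toCoxeterSystem p hg) _ (fun i j hij => mkR_inj M.toCoxeterSystem hij) _ _) h

/-- configurations for even labels -/
theorem even_emb {W : Type} [Group W] (cs : CoxeterSystem M W)
    (hM : ∀ i j, i ≠ j → Even (M i j)) {K : Type} (N : CoxeterMatrix K)
    (q : K → ℕ) (r : K → (B → ℝ)) (hr : ConfS cs p N q r) : ∃ f : K → B, Function.Injective f ∧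
      (∀ i j, M (f i) (f j) = N i j) ∧ ∀ i, p (f i) = q i := by
  have h1 : ∀ i, ∃ (w : W) (s : B), q i = p s ∧ r i = geo cs w (ee s) := by
    intro i
    obtain ⟨w, s, t, -, -, h1, -, h2, -⟩ := hr i i
    exact ⟨w, s, h1, h2⟩
  choose w f hq hf using h1
  have ht : ∀ i (v : W) (s : B), r i = geo cs v (ee s) → s = f i := by
    intro i v s hi
    apply even_type cs hM (w := (w i)⁻¹ * v)
    rw [← geo_geo, ← hi, hf i, geo_inv_apply]
  have hlab : ∀ i j, M (f i) (f j) = N i j := by
    intro i j
    obtain ⟨v, s, t, h1, -, -, -, h2, h3⟩ := hr i j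
    rw [← ht i v s h2, ← ht j v t h3, h1]
  refine ⟨f, fun i j hij => ?_, hlab, fun i => (hq i).symm⟩
  by_contra hne
  have h2 := hlab i j
  rw [hij] at h2
  exact N.off_diagonal i j hne (h2.symm.trans (M.diagonal _))

/-- **even labels** -/
theorem vs_even (hC : ClosedE C)
    (hcox : ∀ (B : Type) [Finite B] (M : CoxeterMatrix B), C M.Group) (hg : Good M p)
    (hM : ∀ i j, i ≠ j → Even (M i j)) : C (VirtualShephard M p) ↔ C (Sh M p) := by
  refine ⟨sh_of_vs p hC hcox hg, fun h => ?_⟩
  rw [vs_conf p hC hcox hg]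
  intro K _ N q r hr _
  obtain ⟨f, h1, h2, h3⟩ := even_emb p M.toCoxeterSystem hM N q r hr
  exact hC.base.of_injective _ _ (hmS f h2 h3) (hmS_inj hg f h1 h2 h3) h

/-- any three roots have two labels `2` -/
theorem vs_loc (hC : ClosedE C)
    (hcox : ∀ (B : Type) [Finite B] (M : CoxeterMatrix B), C M.Group) (hg : Good M p)
    (hM : ∀ (N : CoxeterMatrix (Fin 3)) (r : Fin 3 → (B → ℝ)), Conf M.toCoxeterSystem N r →
      N 0 1 = 2 ∨ N 1 2 = 2) : C (VirtualShephard M p) := by
  rw [vs_sh M.toCoxeterSystem p hC hcox (hcox B M) hg]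
  refine she_loc hC hcox _ _ (good_hat M.toCoxeterSystem p hg) ?_
  intro x y z hxy hyz hxz h1 h2 h3
  let e : Fin 3 → Rt M.toCoxeterSystem := ![x, y, z]
  have he : Function.Injective e := by
    intro a b hab
    fin_cases a <;> fin_cases b <;>
      first
        | rfl
        | exact absurd hab hxy
        | exact absurd hab hyz
        | exact absurd hab hxz
        | exact absurd hab.symm hxy
        | exact absurd hab.symm hyz
        | exact absurd hab.symm hxz
  let N : CoxeterMatrix (Fin 3) :=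
    { M := fun a b => hat M.toCoxeterSystem (e a) (e b)
      isSymm := by
        ext a b
        exact (hat M.toCoxeterSystem).symmetric _ _
      diagonal := fun a => (hat M.toCoxeterSystem).diagonal _
      off_diagonal := fun a b hab => (hat M.toCoxeterSystem).off_diagonal _ _ fun h => hab (he h) }
  have hN : ∀ a b, hat M.toCoxeterSystem (e a) (e b) ≠ 0 := by
    intro a b
    have h1' := (hat M.toCoxeterSystem).symmetric x y
    have h2' := (hat M.toCoxeterSystem).symmetric y z
    have h3' := (hat M.toCoxeterSystem).symmetric x z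
    have d : ∀ u, hat M.toCoxeterSystem u u ≠ 0 := fun u => by
      rw [(hat M.toCoxeterSystem).diagonal]
      exact one_ne_zero
    fin_cases a <;> fin_cases b <;>
      first
        | exact d _
        | exact h1
        | exact h2
        | exact h3
        | exact h1' ▸ h1
        | exact h2' ▸ h2
        | exact h3' ▸ h3
  exact hM N (fun a => (e a).1) fun a b => by
    obtain ⟨w, s, t, e1, e2, e3⟩ := lb_ne_zero M.toCoxeterSystem (hN a b)
    exact ⟨w, s, t, e3, hN a b, congrArg Subtype.val e1, congrArg Subtype.val e2⟩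

/-- **flat virtual Artin groups** -/
theorem vs_flat (hC : ClosedE C)
    (hcox : ∀ (B : Type) [Finite B] (M : CoxeterMatrix B), C M.Group) (hp : ∀ i, p i = 2) :
    C (VirtualShephard M p) := by
  have hg : Good M p := ⟨fun i => by rw [hp]; decide, fun i j _ => by rw [hp, hp]⟩
  rw [vs_conf p hC hcox hg]
  intro K _ N q r hr _
  obtain ⟨f, hf⟩ := she_two N q fun i => by
    obtain ⟨w, s, t, -, -, h1, -⟩ := hr i i
    rw [h1, hp]
  exact hC.base.of_injective _ _ f hf (hcox K N)

/-- three vectors with the same mutual product -/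
theorem gram (M : CoxeterMatrix B) (hB : Fintype.card B ≤ 2)
    (x y z : B → ℝ) (c : ℝ) (hc : c ≠ 1 / 2) (hc1 : c ≠ -1)
    (hxx : bil M x x = 2) (hyy : bil M y y = 2) (hzz : bil M z z = 2)
    (hxy : bil M x y = -2 * c) (hxz : bil M x z = -2 * c) (hyz : bil M y z = -2 * c) : False := by
  have hadd : ∀ a b d : ℝ, ∀ v : B → ℝ, bil M (a • x + b • y + d • z) v =
      a * bil M x v + b * bil M y v + d * bil M z v := by
    intro a b d v
    unfold bil
    simp only [Pi.add_apply, Pi.smul_apply, smul_eq_mul, Finset.mul_sum, ← Finset.sum_add_distrib]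
    apply Finset.sum_congr rfl
    intro i _
    ring
  have hli : LinearIndependent ℝ ![x, y, z] := by
    rw [Fintype.linearIndependent_iff]
    intro g hg
    have h0 : g 0 • x + g 1 • y + g 2 • z = 0 := by
      have := hg
      simpa [Fin.sum_univ_three] using this
    have hz0 : ∀ v : B → ℝ, bil M 0 v = 0 := by
      intro v
      unfold bil
      simp
    have e1 := hadd (g 0) (g 1) (g 2) x
    have e2 := hadd (g 0) (g 1) (g 2) y
    have e3 := hadd (g 0) (g 1) (g 2) z
    rw [h0, hz0] at e1 e2 e3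
    rw [bil_symm y x, bil_symm z x] at e1
    rw [bil_symm z y] at e2
    rw [hxx, hxy, hxz] at e1
    rw [hyy, hxy, hyz] at e2
    rw [hzz, hxz, hyz] at e3
    have k1 : (1 + c) * (g 0 - g 1) = 0 := by linear_combination (e2 - e1) / 2
    have k2 : (1 + c) * (g 1 - g 2) = 0 := by linear_combination (e3 - e2) / 2
    have hc2 : 1 + c ≠ 0 := fun h => hc1 (by linarith)
    have k3 : g 0 = g 1 := by
      have := (mul_eq_zero.1 k1).resolve_left hc2
      linarith
    have k4 : g 1 = g 2 := by
      have := (mul_eq_zero.1 k2).resolve_left hc2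
      linarith
    have k5 : (1 - 2 * c) * g 0 = 0 := by
      rw [← k4, ← k3] at e1
      linear_combination (-1 / 2) * e1
    have k6 : g 0 = 0 := (mul_eq_zero.1 k5).resolve_left fun h => hc (by linarith)
    intro i
    fin_cases i
    · exact k6
    · exact k3 ▸ k6
    · exact k4 ▸ k3 ▸ k6
  have h1 := hli.fintype_card_le_finrank
  rw [Module.finrank_fintype_fun_eq_card] at h1
  simp at h1
  omega

/-- labels and products of roots in a configuration -/
theorem conf_val {W : Type} [Group W] (cs : CoxeterSystem M W) {K : Type} (N : CoxeterMatrix K)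
    (r : K → (B → ℝ)) (hr : Conf cs N r) (i j : K) (hij : i ≠ j) :
    ∃ s t : B, s ≠ t ∧ M s t ≠ 0 ∧ N i j = M s t ∧
      bil M (r i) (r j) = -2 * Real.cos (Real.pi / (M s t : ℝ)) := by
  obtain ⟨w, s, t, h1, h2, h3, h4⟩ := hr i j
  refine ⟨s, t, ?_, h1 ▸ h2, h1, ?_⟩
  · rintro rfl
    exact N.off_diagonal i j hij (h1.trans (M.diagonal s))
  · rw [h3, h4, bil_geo, bil_ee_left, coroot_ee]
    rfl

theorem conf_self {W : Type} [Group W] (cs : CoxeterSystem M W) {K : Type} (N : CoxeterMatrix K)
    (r : K → (B → ℝ)) (hr : Conf cs N r) (i : K) : bil M (r i) (r i) = 2 := by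
  obtain ⟨w, s, t, -, -, h3, -⟩ := hr i i
  rw [h3, bil_geo, bil_ee_left, coroot_ee, cc_self]
  norm_num

/-- in rank two there is only one label -/
theorem rank_two_label (hB : Fintype.card B ≤ 2) {s t s' t' : B} (h : s ≠ t) (h' : s' ≠ t') :
    M s t = M s' t' := by
  have h1 : ∀ x : B, x = s ∨ x = t := by
    intro x
    by_contra hx
    push Not at hx
    have h2 : ({s, t, x} : Finset B).card = 3 := by
      rw [Finset.card_insert_of_notMem, Finset.card_insert_of_notMem, Finset.card_singleton]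
      · simpa using hx.2.symm
      · simp only [Finset.mem_insert, Finset.mem_singleton, not_or]
        exact ⟨h, hx.1.symm⟩
    have h3 := Finset.card_le_univ ({s, t, x} : Finset B)
    omega
  rcases h1 s' with rfl | rfl <;> rcases h1 t' with rfl | rfl
  · exact absurd rfl h'
  · rfl
  · exact M.symmetric _ _
  · exact absurd rfl h'

/-- **rank two** -/
theorem vs_rank_two (hC : ClosedE C)
    (hcox : ∀ (B : Type) [Finite B] (M : CoxeterMatrix B), C M.Group) (hg : Good M p)
    (hB : Fintype.card B ≤ 2) (h3 : ∀ i j, M i j ≠ 3) : C (VirtualShephard M p) := by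
  refine vs_loc p hC hcox hg fun N r hr => ?_
  obtain ⟨s, t, hst, h0, h1, h2⟩ := conf_val M.toCoxeterSystem N r hr 0 1 (by decide)
  by_cases hm : M s t = 2
  · exact Or.inl (h1.trans hm)
  · exfalso
    have hone : M s t ≠ 1 := M.off_diagonal s t hst
    have h4 : 3 < M s t := by
      have := h3 s t
      omega
    obtain ⟨s', t', hst', -, -, h2'⟩ := conf_val M.toCoxeterSystem N r hr 0 2 (by decide)
    obtain ⟨s'', t'', hst'', -, -, h2''⟩ := conf_val M.toCoxeterSystem N r hr 1 2 (by decide)
    rw [rank_two_label (M := M) hB hst' hst] at h2'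
    rw [rank_two_label (M := M) hB hst'' hst] at h2''
    have hpos : (0 : ℝ) < M s t := by exact_mod_cast (by omega : 0 < M s t)
    have hcos : 1 / 2 < Real.cos (Real.pi / (M s t : ℝ)) := by
      rw [← Real.cos_pi_div_three]
      apply Real.cos_lt_cos_of_nonneg_of_le_pi_div_two
      · positivity
      · have := Real.pi_pos
        linarith
      · apply div_lt_div_of_pos_left Real.pi_pos (by norm_num)
        exact_mod_cast h4
    exact gram M hB (r 0) (r 1) (r 2) (Real.cos (Real.pi / (M s t : ℝ))) hcos.ne'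
      (by intro h; rw [h] at hcos; norm_num at hcos)
      (conf_self M.toCoxeterSystem N r hr 0) (conf_self M.toCoxeterSystem N r hr 1)
      (conf_self M.toCoxeterSystem N r hr 2) h2 h2' h2''

end main

/-- **type `A`** -/
theorem vs_A (hC : ClosedE C)
    (hcox : ∀ (B : Type) [Finite B] (M : CoxeterMatrix B), C M.Group) (c : ℕ) (hc : Even c)
    (hcyc : ∀ n : ℕ, 3 ≤ n → C (Sh (cyc n) fun _ => c)) (n : ℕ) :
    C (VirtualShephard (CoxeterMatrix.A n) fun _ => c) := by
  rw [vs_conf (fun _ => c) hC hcox ⟨fun _ => hc, fun _ _ _ => rfl⟩]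
  intro K _ N q r hr hI
  obtain ⟨L, _, π, f, h1, h2, h3, h4⟩ := conf_A (CoxeterMatrix.A n).toCoxeterSystem N r hr.conf
  rcases isEmpty_or_nonempty K with hK | ⟨⟨x⟩⟩
  · exact hC.base.of_injective _ _ (hmS (fun k : K => isEmptyElim k) (fun i => isEmptyElim i)
      (fun i => isEmptyElim i)) (hmS_inj (M₂ := cyc 3) (p₂ := fun _ => c)
      ⟨fun _ => hc, fun _ _ _ => rfl⟩ _ (fun i => isEmptyElim i) _ _) (hcyc 3 le_rfl)
  obtain ⟨m, g, h5, h6, h7⟩ := irr_cyc N hI x π f h1 h2 h3 h4
  have hq : ∀ i, c = q i := by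
    intro i
    obtain ⟨w, s, t, -, -, h8, -⟩ := hr i i
    exact h8.symm
  exact hC.base.of_injective _ _ (hmS g h7 hq)
    (hmS_inj ⟨fun _ => hc, fun _ _ _ => rfl⟩ g h6 h7 hq) (hcyc m h5)

/-- the converse -/
theorem cyc_of_vs (hC : ClosedE C)
    (hcox : ∀ (B : Type) [Finite B] (M : CoxeterMatrix B), C M.Group) (c : ℕ) (hc : Even c)
    (n : ℕ) (hn : 2 ≤ n) (h : C (VirtualShephard (CoxeterMatrix.A n) fun _ => c)) :
    C (Sh (cyc (n + 1)) fun _ => c) := by
  obtain ⟨r, hr⟩ := cyc_conf (CoxeterMatrix.A n).toCoxeterSystem hn c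
  exact sh_of_conf (fun _ => c) hC hcox ⟨fun _ => hc, fun _ _ _ => rfl⟩ h _ _ r hr

theorem vs_A_iff (hC : ClosedE C)
    (hcox : ∀ (B : Type) [Finite B] (M : CoxeterMatrix B), C M.Group) (c : ℕ) (hc : Even c) :
    (∀ n : ℕ, C (VirtualShephard (CoxeterMatrix.A n) fun _ => c)) ↔
      ∀ n : ℕ, 3 ≤ n → C (Sh (cyc n) fun _ => c) := by
  refine ⟨fun h n hn => ?_, fun h => vs_A hC hcox c hc h⟩
  obtain ⟨m, rfl⟩ := Nat.exists_eq_add_of_le' (by omega : 1 ≤ n)
  exact cyc_of_vs hC hcox c hc m (by omega) (h m)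

theorem vs_A_two (hC : ClosedE C)
    (hcox : ∀ (B : Type) [Finite B] (M : CoxeterMatrix B), C M.Group) (c : ℕ) (hc : Even c) :
    C (VirtualShephard (CoxeterMatrix.A 2) fun _ => c) ↔ C (Sh (cyc 3) fun _ => c) := by
  refine ⟨cyc_of_vs hC hcox c hc 2 le_rfl, fun h => ?_⟩
  rw [vs_conf (fun _ => c) hC hcox ⟨fun _ => hc, fun _ _ _ => rfl⟩]
  intro K _ N q r hr _
  obtain ⟨g, h6, h7⟩ := conf_A_two (CoxeterMatrix.A 2).toCoxeterSystem N r hr.conf
  have hq : ∀ i, c = q i := by
    intro i
    obtain ⟨w, s, t, -, -, h8, -⟩ := hr i i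
    exact h8.symm
  exact hC.base.of_injective _ _ (hmS g h7 hq)
    (hmS_inj ⟨fun _ => hc, fun _ _ _ => rfl⟩ g h6 h7 hq) h

end Pool.Agent.H53.VS.F
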