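import Pool.Agent.H53.VS.TypeA

/-!
Cycles of roots in type `A`.
-/

set_option autoImplicit false

namespace Pool.Agent.H53.VS

open Pool.Agent.Helper741 Pool.Agent.TH107 CoxeterSystem Pool.Agent.X201.AT
open Pool.Agent.H53.VA Pool.Agent.R665.She

variable {m : ℕ} {W : Type} [Group W] (cs : CoxeterSystem (CoxeterMatrix.A m) W)

/-- all permutations of the coordinates are given by elements of the Coxeter group -/
theorem perm_geo (σ : Equiv.Perm (Fin (m + 1))) :
    ∃ w : W, ∀ (v : Fin m → ℝ) (k : Fin (m + 1)), LL m (geo cs w v) k = LL m v (σ k) := by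
  have h : σ ∈ (⊤ : Submonoid (Equiv.Perm (Fin (m + 1)))) := trivial
  rw [← Equiv.Perm.mclosure_swap_castSucc_succ] at h
  induction h using Submonoid.closure_induction with
  | mem x hx =>
    obtain ⟨i, rfl⟩ := hx
    refine ⟨cs.simple i, fun v k => ?_⟩
    rw [geo_simple, sg_A]
  | one => exact ⟨1, fun v k => by rw [map_one]; rfl⟩
  | mul x y _ _ hx hy =>
    obtain ⟨w, hw⟩ := hx
    obtain ⟨w', hw'⟩ := hy
    refine ⟨w' * w, fun v k => ?_⟩
    rw [← geo_geo, hw', hw]
    rfl

theorem LL_inj {v w : Fin m → ℝ} (h : LL m v = LL m w) : v = w := by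
  have h0 : ∀ u : Fin m → ℝ, LL m u = 0 → u = 0 := by
    intro u hu
    have h1 : ∀ (k : ℕ) (hk : k < m), u ⟨k, hk⟩ = 0 := by
      intro k
      induction k with
      | zero =>
        intro hk
        have h2 := congrFun hu (⟨0, hk⟩ : Fin m).castSucc
        unfold Pool.Agent.H53.VA.LL at h2
        rw [Finset.sum_apply, Finset.sum_eq_single (⟨0, hk⟩ : Fin m)] at h2
        · have h3 : (⟨0, hk⟩ : Fin m).castSucc ≠ (⟨0, hk⟩ : Fin m).succ := Fin.castSucc_lt_succ.ne
          simpa [al, h3] using h2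
        · intro b _ hb
          have h3 : (⟨0, hk⟩ : Fin m).castSucc ≠ b.castSucc := fun h' =>
            hb (Fin.castSucc_injective m h').symm
          have h4 : (⟨0, hk⟩ : Fin m).castSucc ≠ b.succ := fun h' => by
            have := congrArg Fin.val h'
            simp at this
          simp only [al, Pi.smul_apply, Pi.sub_apply, Pi.single_apply]
          rw [if_neg h3, if_neg h4, sub_self, smul_zero]
        · intro h'
          exact absurd (Finset.mem_univ _) h'
      | succ k ih =>
        intro hk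
        have h2 := congrFun hu (⟨k + 1, hk⟩ : Fin m).castSucc
        unfold Pool.Agent.H53.VA.LL at h2
        rw [Finset.sum_apply, Finset.sum_eq_single (⟨k + 1, hk⟩ : Fin m)] at h2
        · have h3 : (⟨k + 1, hk⟩ : Fin m).castSucc ≠ (⟨k + 1, hk⟩ : Fin m).succ :=
            Fin.castSucc_lt_succ.ne
          simpa [al, h3] using h2
        · intro b _ hb
          by_cases hb' : b = ⟨k, by omega⟩
          · subst hb'
            have := ih (by omega)
            simp [this]
          · have h3 : (⟨k + 1, hk⟩ : Fin m).castSucc ≠ b.castSucc := fun h' =>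
              hb (Fin.castSucc_injective m h').symm
            have h4 : (⟨k + 1, hk⟩ : Fin m).castSucc ≠ b.succ := fun h' => by
              have h5 := congrArg Fin.val h'
              simp at h5
              exact hb' (Fin.ext h5.symm)
            simp only [al, Pi.smul_apply, Pi.sub_apply, Pi.single_apply]
            rw [if_neg h3, if_neg h4, sub_self, smul_zero]
        · intro h'
          exact absurd (Finset.mem_univ _) h'
    funext ⟨k, hk⟩
    exact h1 k hk
  have h2 : LL m (v + (-1 : ℝ) • w) = 0 := by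
    rw [LL_add, LL_smul, h]
    module
  have h3 := h0 _ h2
  have h4 : v = (v + (-1 : ℝ) • w) + w := by module
  rw [h4, h3, zero_add]

/-- a permutation moves `e a - e b` -/
theorem perm_pr (σ : Equiv.Perm (Fin (m + 1))) (a b k : Fin (m + 1)) :
    pr m a b (σ k) = pr m (σ.symm a) (σ.symm b) k := by
  unfold pr
  simp only [Pi.sub_apply, Pi.single_apply]
  congr 1
  · by_cases h : σ k = a
    · rw [if_pos h, if_pos (by rw [← h, Equiv.symm_apply_apply])]
    · rw [if_neg h, if_neg fun h' => h (by rw [h', Equiv.apply_symm_apply])]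
  · by_cases h : σ k = b
    · rw [if_pos h, if_pos (by rw [← h, Equiv.symm_apply_apply])]
    · rw [if_neg h, if_neg fun h' => h (by rw [h', Equiv.apply_symm_apply])]

theorem cyc_fin (m : ℕ) (i j : Fin (m + 1)) : (cyc (m + 1)).M i j =
    if i = j then 1 else if i + 1 = j ∨ j + 1 = i then 3 else 2 := rfl

/-- the cycle of roots `e k - e (k + 1)` -/
theorem cyc_conf (hm : 2 ≤ m) (c : ℕ) : ∃ r : ZMod (m + 1) → (Fin m → ℝ),
    ConfS cs (fun _ => c) (cyc (m + 1)) (fun _ => c) r := by
  have hrot : ∀ a : Fin (m + 1), ∃ w : W, ∀ s : Fin m,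
      LL m (geo cs w (ee s)) = pr m (a + s.castSucc) (a + s.succ) := by
    intro a
    obtain ⟨w, hw⟩ := perm_geo cs (Equiv.addLeft a).symm
    refine ⟨w, fun s => ?_⟩
    funext k
    rw [hw, LL_ee]
    show pr m s.castSucc s.succ _ = _
    rw [perm_pr]
    rfl
  have hex : ∀ i : Fin (m + 1), ∃ v : Fin m → ℝ, LL m v = pr m i (i + 1) := by
    intro i
    obtain ⟨w, hw⟩ := hrot i
    refine ⟨geo cs w (ee ⟨0, by omega⟩), ?_⟩
    rw [hw]
    have h1 : i + (⟨0, by omega⟩ : Fin m).castSucc = i := by
      apply Fin.ext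
      simp
    have h2 : (⟨0, by omega⟩ : Fin m).succ = (1 : Fin (m + 1)) := by
      apply Fin.ext
      show 0 + 1 = 1 % (m + 1)
      rw [Nat.mod_eq_of_lt (by omega)]
    rw [h1, h2]
  choose r hr using hex
  refine ⟨r, fun i j => ?_⟩
  change Fin (m + 1) at i j
  have hsucc : ∀ s : Fin m, s.castSucc + 1 = s.succ := fun s => by
    apply Fin.ext
    rw [Fin.val_add]
    show ((s : ℕ) + 1 % (m + 1)) % (m + 1) = (s : ℕ) + 1
    rw [Nat.mod_eq_of_lt (by omega : 1 < m + 1), Nat.mod_eq_of_lt (by omega)]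
  -- the rotation
  obtain ⟨a, ha1, ha2⟩ : ∃ a : Fin (m + 1), i - a ≠ Fin.last m ∧ j - a ≠ Fin.last m := by
    by_contra hcon
    push Not at hcon
    have h1 : ∀ a : Fin (m + 1), a = i - Fin.last m ∨ a = j - Fin.last m := by
      intro a
      by_cases h : i - a = Fin.last m
      · left
        rw [← h]
        abel
      · right
        rw [← hcon a h]
        abel
    have h2 : (Finset.univ : Finset (Fin (m + 1))) ⊆ {i - Fin.last m, j - Fin.last m} := by
      intro a _
      simpa using h1 a
    have h3 := Finset.card_le_card h2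
    have h4 : ({i - Fin.last m, j - Fin.last m} : Finset (Fin (m + 1))).card ≤ 2 := Finset.card_le_two
    rw [Finset.card_univ, Fintype.card_fin] at h3
    omega
  obtain ⟨s, hs⟩ := Fin.exists_castSucc_eq.2 ha1
  obtain ⟨t, ht⟩ := Fin.exists_castSucc_eq.2 ha2
  obtain ⟨w, hw⟩ := hrot a
  have hi : i = a + s.castSucc := by rw [hs]; abel
  have hj : j = a + t.castSucc := by rw [ht]; abel
  have hlab : (cyc (m + 1)).M i j = CoxeterMatrix.A m s t := by
    rw [cyc_fin, A_apply]
    have e1 : (i = j) ↔ s = t := by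
      rw [hi, hj, add_right_inj]
      exact (Fin.castSucc_injective m).eq_iff
    have e2 : (i + 1 = j) ↔ (s : ℕ) + 1 = t := by
      rw [hi, hj, add_assoc, add_right_inj, hsucc, Fin.ext_iff]
      rfl
    have e3 : (j + 1 = i) ↔ (t : ℕ) + 1 = s := by
      rw [hi, hj, add_assoc, add_right_inj, hsucc, Fin.ext_iff]
      rfl
    by_cases h : i = j
    · rw [if_pos h, if_pos (e1.1 h)]
    · rw [if_neg h, if_neg fun h' => h (e1.2 h')]
      by_cases h' : i + 1 = j ∨ j + 1 = i
      · rw [if_pos h', if_pos (h'.symm.imp e3.1 e2.1)]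
      · rw [if_neg h', if_neg fun h'' => h' (h''.symm.imp e2.2 e3.2)]
  refine ⟨w, s, t, hlab, ?_, rfl, rfl, ?_, ?_⟩
  · change (cyc (m + 1)).M i j ≠ 0
    rw [cyc_fin]
    split_ifs <;> norm_num
  · apply LL_inj
    rw [hw, hr, ← hsucc, ← add_assoc, ← hi]
  · apply LL_inj
    rw [hw, hr, ← hsucc, ← add_assoc, ← hj]

/-- the configurations in type `A₂` are parts of the cycle of length three -/
theorem conf_A_two {W : Type} [Group W] (cs : CoxeterSystem (CoxeterMatrix.A 2) W) {K : Type}
    [Finite K] (N : CoxeterMatrix K) (r : K → (Fin 2 → ℝ)) (hr : Conf cs N r) :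
    ∃ g : K → ZMod 3, Function.Injective g ∧ ∀ i j, cyc 3 (g i) (g j) = N i j := by
  have hN : ∀ i j, i ≠ j → N i j = 3 ∧ bil (CoxeterMatrix.A 2) (r i) (r j) = -1 := by
    intro i j hij
    obtain ⟨w, s, t, h1, h2, h3, h4⟩ := hr i j
    have hst : s ≠ t := by
      rintro rfl
      exact N.off_diagonal i j hij (h1.trans ((CoxeterMatrix.A 2).diagonal s))
    have h5 : CoxeterMatrix.A 2 s t = 3 := by
      fin_cases s <;> fin_cases t <;> first | exact absurd rfl hst | rfl
    refine ⟨h1.trans h5, ?_⟩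
    rw [h3, h4, bil_geo, bil_ee_left, coroot_ee]
    unfold cc
    rw [h5]
    have h6 : Real.cos (Real.pi / ((3 : ℕ) : ℝ)) = 1 / 2 := by
      push_cast
      exact Real.cos_pi_div_three
    rw [h6]
    norm_num
  have hroot : ∀ i, ∃ a b : Fin 3, a ≠ b ∧ LL 2 (r i) = pr 2 a b := by
    intro i
    obtain ⟨w, s, t, -, -, h1, -⟩ := hr i i
    rw [h1]
    exact root_pr cs w s
  choose a b hab hL using hroot
  have ha : Function.Injective a := by
    intro i j hij
    by_contra hne
    have h1 := (hN i j hne).2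
    rw [bil_A, hL, hL, pr_pr, if_pos hij] at h1
    have h2 : a i ≠ b j := by rw [hij]; exact hab j
    have h3 : b i ≠ a j := by rw [← hij]; exact (hab i).symm
    rw [if_neg h2, if_neg h3] at h1
    split_ifs at h1 <;> norm_num at h1
  refine ⟨a, ha, fun i j => ?_⟩
  by_cases hij : i = j
  · subst hij
    rw [(cyc 3).diagonal, N.diagonal]
  · have h1 : ∀ x y : Fin 3, x ≠ y → (cyc (2 + 1)).M x y = 3 := by
      intro x y hxy
      rw [cyc_fin, if_neg hxy, if_pos]
      revert x y
      decide
    exact (h1 _ _ fun h => hij (ha h)).trans (hN i j hij).1.symm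

end Pool.Agent.H53.VS
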