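import Pool.Agent.H53.VA.TypeA
import Pool.Graph.R_pool_sql_team_seeded_b0a926ef.R665.She.BC2

/-!
Virtual Shephard groups are semidirect products of the Shephard group on the root system with the
Coxeter group.
-/

set_option autoImplicit false

namespace Pool.Agent.H53.VS

open Pool.Agent.Helper741 Pool.Agent.TH107 CoxeterSystem Pool.Agent.X201.AT
open Pool.Agent.H53.VA Pool.Agent.R665.She

section perm

variable {K : Type} (N : CoxeterMatrix K) (q : K → ℕ)
variable {W : Type} [Group W] (a : W → Equiv.Perm K) (ha : ∀ w i j, N (a w i) (a w j) = N i j)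
  (hq : ∀ w i, q (a w i) = q i)
  (hmul : ∀ u w i, a (u * w) i = a u (a w i)) (hone : ∀ i, a 1 i = i)

/-- the endomorphism of the Shephard group given by a permutation of the generators -/
def permHomS (w : W) : Sh N q →* Sh N q := hmS (a w) (ha w) (hq w)

theorem permHomS_gen (w : W) (i : K) :
    permHomS N q a ha hq w (Sh.gen N q i) = Sh.gen N q (a w i) := hmS_gen _ _ _ _

include hmul in
theorem permHomS_mul (u w : W) (x : Sh N q) :
    permHomS N q a ha hq (u * w) x = permHomS N q a ha hq u (permHomS N q a ha hq w x) := by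
  have h1 : permHomS N q a ha hq (u * w) =
      (permHomS N q a ha hq u).comp (permHomS N q a ha hq w) := by
    apply Sh.hom_ext
    intro i
    rw [MonoidHom.comp_apply, permHomS_gen, permHomS_gen, permHomS_gen, hmul]
  rw [h1]
  rfl

include hone in
theorem permHomS_one (x : Sh N q) : permHomS N q a ha hq 1 x = x := by
  have h1 : permHomS N q a ha hq 1 = MonoidHom.id _ := by
    apply Sh.hom_ext
    intro i
    rw [permHomS_gen, hone]
    rfl
  rw [h1]
  rfl

/-- the action of a group on a Shephard group by permutations of the generators -/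
def permActS : W →* MulAut (Sh N q) where
  toFun := fun w =>
    { toFun := fun x => permHomS N q a ha hq w x
      invFun := fun x => permHomS N q a ha hq w⁻¹ x
      left_inv := fun x => by
        show permHomS N q a ha hq w⁻¹ (permHomS N q a ha hq w x) = x
        rw [← permHomS_mul N q a ha hq hmul, inv_mul_cancel, permHomS_one N q a ha hq hone]
      right_inv := fun x => by
        show permHomS N q a ha hq w (permHomS N q a ha hq w⁻¹ x) = x
        rw [← permHomS_mul N q a ha hq hmul, mul_inv_cancel, permHomS_one N q a ha hq hone]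
      map_mul' := fun x y => map_mul (permHomS N q a ha hq w) x y }
  map_one' := MulEquiv.ext fun x => permHomS_one N q a ha hq hone x
  map_mul' := fun u w => MulEquiv.ext fun x => permHomS_mul N q a ha hq hmul u w x

theorem permActS_gen (w : W) (i : K) :
    permActS N q a ha hq hmul hone w (Sh.gen N q i) = Sh.gen N q (a w i) :=
  permHomS_gen N q a ha hq w i

end perm

section defs

variable {B : Type} (M : CoxeterMatrix B) (p : B → ℕ)

/-- the virtual Shephard group: the quotient of the virtual Artin group by the relations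
`σ i ^ p i = 1` -/
abbrev VirtualShephard : Type :=
  VirtualArtin M ⧸ Subgroup.normalClosure (Set.range fun i => sig M i ^ p i)

/-- the projection -/
abbrev vpr : VirtualArtin M →* VirtualShephard M p := QuotientGroup.mk' _

/-- the braid generators -/
def sgS (i : B) : VirtualShephard M p := vpr M p (sig M i)

/-- the involutions -/
def tgS (i : B) : VirtualShephard M p := vpr M p (tau M i)

variable {M p}

theorem sgS_pow (i : B) : sgS M p i ^ p i = 1 := by
  unfold sgS
  rw [← map_pow]
  exact (QuotientGroup.eq_one_iff _).2 (Subgroup.subset_normalClosure ⟨i, rfl⟩)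

theorem sgS_braid (i j : B) :
    alt (sgS M p i) (sgS M p j) (M i j) = alt (sgS M p j) (sgS M p i) (M i j) := by
  unfold sgS
  rw [← map_alt, ← map_alt, sig_braid]

theorem tgS_pow (i j : B) : (tgS M p i * tgS M p j) ^ M i j = 1 := by
  unfold tgS
  rw [← map_mul, ← map_pow, tau_pow, map_one]

theorem tgS_sgS (i j : B) (hij : i ≠ j) (h0 : M i j ≠ 0) :
    alt (tgS M p j) (tgS M p i) (M i j - 1) * sgS M p (if Even (M i j) then i else j) =
      sgS M p i * alt (tgS M p j) (tgS M p i) (M i j - 1) := by
  unfold tgS sgS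
  rw [← map_alt, ← map_mul, ← map_mul, tau_sig i j hij h0]

/-- the universal property -/
def vliftS {G : Type} [Group G] (σ τ : B → G)
    (h1 : ∀ i j, alt (σ i) (σ j) (M i j) = alt (σ j) (σ i) (M i j))
    (h2 : ∀ i j, (τ i * τ j) ^ M i j = 1)
    (h3 : ∀ i j, i ≠ j → M i j ≠ 0 →
      alt (τ j) (τ i) (M i j - 1) * σ (if Even (M i j) then i else j) =
        σ i * alt (τ j) (τ i) (M i j - 1)) (h4 : ∀ i, σ i ^ p i = 1) : VirtualShephard M p →* G :=
  QuotientGroup.lift _ (vlift σ τ h1 h2 h3) (by
    intro x hx
    have h5 : Subgroup.normalClosure (Set.range fun i => sig M i ^ p i) ≤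
        (vlift σ τ h1 h2 h3).ker := by
      rw [← Subgroup.normalClosure_subset_iff]
      rintro _ ⟨i, rfl⟩
      show vlift σ τ h1 h2 h3 (sig M i ^ p i) = 1
      rw [map_pow, vlift_sig, h4]
    exact h5 hx)

section

variable {G : Type} [Group G] (σ τ : B → G)
    (h1 : ∀ i j, alt (σ i) (σ j) (M i j) = alt (σ j) (σ i) (M i j))
    (h2 : ∀ i j, (τ i * τ j) ^ M i j = 1)
    (h3 : ∀ i j, i ≠ j → M i j ≠ 0 →
      alt (τ j) (τ i) (M i j - 1) * σ (if Even (M i j) then i else j) =
        σ i * alt (τ j) (τ i) (M i j - 1)) (h4 : ∀ i, σ i ^ p i = 1)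

theorem vliftS_sgS (i : B) : vliftS σ τ h1 h2 h3 h4 (sgS M p i) = σ i := by
  show vlift σ τ h1 h2 h3 (sig M i) = σ i
  exact vlift_sig σ τ h1 h2 h3 i

theorem vliftS_tgS (i : B) : vliftS σ τ h1 h2 h3 h4 (tgS M p i) = τ i := by
  show vlift σ τ h1 h2 h3 (tau M i) = τ i
  exact vlift_tau σ τ h1 h2 h3 i

end

theorem vhomS_ext {G : Type} [Group G] {f g : VirtualShephard M p →* G}
    (hs : ∀ i, f (sgS M p i) = g (sgS M p i)) (ht : ∀ i, f (tgS M p i) = g (tgS M p i)) : f = g := by
  apply QuotientGroup.monoidHom_ext
  exact vhom_ext hs ht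

end defs

section iso

variable {B : Type} {M : CoxeterMatrix B} [Fintype B] [DecidableEq B]
variable {W : Type} [Group W] (cs : CoxeterSystem M W) (p : B → ℕ)

/-- the orders of simple roots in the same orbit agree -/
theorem order_eq (hg : Good M p) {w : W} {s t : B} (h : geo cs w (ee s) = ee t) : p s = p t := by
  classical
  let F : B → ℤˣ := fun b => if p b = p t then -1 else 1
  have h1 := bh (cs := cs) (1 : W →* ℤˣ) F (fun i j hij h0 => by
    have h2 : F (if Even (M i j) then i else j) = F i := by
      by_cases he : Even (M i j)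
      · rw [if_pos he]
      · rw [if_neg he]
        have h3 := hg.2 i j (Nat.not_even_iff_odd.1 he)
        show (if p j = p t then (-1 : ℤˣ) else 1) = (if p i = p t then -1 else 1)
        rw [h3]
    rw [h2, mul_comm]) _ w s t rfl h
  rw [MonoidHom.one_apply, one_mul, mul_one] at h1
  by_contra hne
  have h3 : F s = 1 := if_neg hne
  have h4 : F t = -1 := if_pos rfl
  rw [h3, h4] at h1
  exact absurd h1 (by decide)

/-- the order of a root -/
noncomputable def ro (x : Rt cs) : ℕ := p (exists_mkR cs x).choose.2

theorem ro_mkR (hg : Good M p) (w : W) (s : B) : ro cs p (mkR cs w s) = p s := by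
  have h := (exists_mkR cs (mkR cs w s)).choose_spec
  unfold ro
  apply order_eq cs p hg (w := w⁻¹ * (exists_mkR cs (mkR cs w s)).choose.1)
  rw [← geo_geo]
  have h2 : geo cs (exists_mkR cs (mkR cs w s)).choose.1 (ee (exists_mkR cs (mkR cs w s)).choose.2) =
    geo cs w (ee s) := congrArg Subtype.val h
  rw [h2, geo_inv_apply]

theorem ro_act (hg : Good M p) (u : W) (x : Rt cs) : ro cs p (actR cs u x) = ro cs p x := by
  obtain ⟨⟨w, s⟩, rfl⟩ := exists_mkR cs x
  rw [actR_mkR, ro_mkR cs p hg, ro_mkR cs p hg]

theorem good_hat (hg : Good M p) : Good (hat cs) (ro cs p) := by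
  constructor
  · intro x
    obtain ⟨⟨w, s⟩, rfl⟩ := exists_mkR cs x
    rw [ro_mkR cs p hg]
    exact hg.1 s
  · intro x y h
    have h0 : lb cs x y ≠ 0 := by
      intro h0
      have h1 : Odd (lb cs x y) := h
      rw [h0] at h1
      exact absurd h1 (by decide)
    obtain ⟨w, s, t, rfl, rfl, h1⟩ := lb_ne_zero cs h0
    rw [ro_mkR cs p hg, ro_mkR cs p hg]
    exact hg.2 s t (h1 ▸ h)

/-- the action of the Coxeter group on the Shephard group of the roots -/
noncomputable def actS (hg : Good M p) : W →* MulAut (Sh (hat cs) (ro cs p)) :=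
  permActS (hat cs) (ro cs p) (actR cs) (fun w i j => lb_act cs w i j) (ro_act cs p hg)
    (actR_mul cs) (actR_one cs)

theorem actS_gen (hg : Good M p) (w : W) (x : Rt cs) :
    actS cs p hg w (Sh.gen (hat cs) (ro cs p) x) = Sh.gen (hat cs) (ro cs p) (actR cs w x) :=
  permActS_gen _ _ _ _ _ _ _ _ _

/-- the semidirect product -/
abbrev PS (hg : Good M p) : Type := Sh (hat cs) (ro cs p) ⋊[actS cs p hg] W

/-- the homomorphism to the semidirect product -/
noncomputable def fwdS (hg : Good M p) : VirtualShephard M p →* PS cs p hg :=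
  vliftS (fun i => SemidirectProduct.inl (Sh.gen (hat cs) (ro cs p) (mkR cs 1 i)))
    (fun i => SemidirectProduct.inr (cs.simple i))
    (fun i j => by
      have h1 := Sh.rel (M := hat cs) (p := ro cs p) (mkR cs 1 i) (mkR cs 1 j)
      rw [hat_apply, lb_mkR] at h1
      have h2 := congrArg (SemidirectProduct.inl (φ := actS cs p hg)) h1
      rwa [map_alt, map_alt] at h2)
    (fun i j => by
      rw [← map_mul, ← map_pow, cs.simple_mul_simple_pow, map_one])
    (fun i j hij h0 => by
      rw [← map_alt (SemidirectProduct.inr (φ := actS cs p hg))]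
      have h1 := SemidirectProduct.inl_aut (φ := actS cs p hg)
        (alt (cs.simple j) (cs.simple i) (M i j - 1))
        (Sh.gen (hat cs) (ro cs p) (mkR cs 1 (if Even (M i j) then i else j)))
      rw [actS_gen, actR_mkR, mul_one] at h1
      have h2 : mkR cs (alt (cs.simple j) (cs.simple i) (M i j - 1))
          (if Even (M i j) then i else j) = mkR cs 1 i := by
        apply Subtype.ext
        show geo cs _ (ee _) = geo cs 1 (ee i)
        rw [map_one, Module.End.one_apply]
        exact alt_root cs hij h0
      rw [h2] at h1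
      rw [h1, map_inv, inv_mul_cancel_right])
    (fun i => by
      have h1 := Sh.pow (M := hat cs) (p := ro cs p) (mkR cs 1 i)
      rw [ro_mkR cs p hg] at h1
      rw [← map_pow, h1, map_one])

theorem fwdS_sgS (hg : Good M p) (i : B) : fwdS cs p hg (sgS M p i) =
    SemidirectProduct.inl (Sh.gen (hat cs) (ro cs p) (mkR cs 1 i)) :=
  vliftS_sgS _ _ _ _ _ _ i

theorem fwdS_tgS (hg : Good M p) (i : B) :
    fwdS cs p hg (tgS M p i) = SemidirectProduct.inr (cs.simple i) :=
  vliftS_tgS _ _ _ _ _ _ i

/-- the homomorphism of the Coxeter group to the virtual Shephard group -/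
noncomputable def tauS : W →* VirtualShephard M p := (vpr M p).comp (tauW cs)

theorem tauS_simple (i : B) : tauS cs p (cs.simple i) = tgS M p i := by
  show vpr M p (tauW cs (cs.simple i)) = _
  rw [tauW_simple]
  rfl

/-- the images of the generators of the Shephard group of the roots -/
noncomputable def bgenS (x : Rt cs) : VirtualShephard M p := vpr M p (bgen cs x)

theorem bgenS_mkR (w : W) (s : B) :
    bgenS cs p (mkR cs w s) = tauS cs p w * sgS M p s * (tauS cs p w)⁻¹ := by
  unfold bgenS
  rw [bgen_mkR, map_mul, map_mul, map_inv]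
  rfl

/-- the homomorphism of the Shephard group of the roots to the virtual Shephard group -/
noncomputable def bShe (hg : Good M p) : Sh (hat cs) (ro cs p) →* VirtualShephard M p :=
  Sh.lift (bgenS cs p) (fun x y => by
    rw [hat_apply]
    by_cases h0 : lb cs x y = 0
    · rw [h0, alt_zero, alt_zero]
    obtain ⟨w, s, t, rfl, rfl, h1⟩ := lb_ne_zero cs h0
    rw [h1, bgenS_mkR, bgenS_mkR, alt_conj', alt_conj', sgS_braid]) (fun x => by
    obtain ⟨⟨w, s⟩, rfl⟩ := exists_mkR cs x
    rw [ro_mkR cs p hg, bgenS_mkR, conj_pow, sgS_pow, mul_one, mul_inv_cancel])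

theorem bShe_gen (hg : Good M p) (x : Rt cs) :
    bShe cs p hg (Sh.gen (hat cs) (ro cs p) x) = bgenS cs p x := Sh.lift_gen _ _ _ x

theorem bgenS_act (u : W) (x : Rt cs) :
    bgenS cs p (actR cs u x) = tauS cs p u * bgenS cs p x * (tauS cs p u)⁻¹ := by
  obtain ⟨⟨w, s⟩, rfl⟩ := exists_mkR cs x
  rw [actR_mkR, bgenS_mkR, bgenS_mkR, map_mul]
  group

/-- the homomorphism from the semidirect product -/
noncomputable def bwdS (hg : Good M p) : PS cs p hg →* VirtualShephard M p :=
  SemidirectProduct.lift (bShe cs p hg) (tauS cs p) fun u => by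
    apply Sh.hom_ext
    intro x
    show bShe cs p hg (actS cs p hg u (Sh.gen (hat cs) (ro cs p) x)) =
      tauS cs p u * bShe cs p hg (Sh.gen (hat cs) (ro cs p) x) * (tauS cs p u)⁻¹
    rw [actS_gen, bShe_gen, bShe_gen, bgenS_act]

/-- **Virtual Shephard groups are semidirect products.** -/
noncomputable def vsEquiv (hg : Good M p) : VirtualShephard M p ≃* PS cs p hg :=
  MonoidHom.toMulEquiv (fwdS cs p hg) (bwdS cs p hg)
    (by
      apply vhomS_ext
      · intro i
        show bwdS cs p hg (fwdS cs p hg (sgS M p i)) = sgS M p i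
        unfold bwdS
        rw [fwdS_sgS, SemidirectProduct.lift_inl, bShe_gen, bgenS_mkR, map_one]
        group
      · intro i
        show bwdS cs p hg (fwdS cs p hg (tgS M p i)) = tgS M p i
        unfold bwdS
        rw [fwdS_tgS, SemidirectProduct.lift_inr, tauS_simple])
    (by
      have hW : ∀ w : W, fwdS cs p hg (tauS cs p w) = SemidirectProduct.inr w := by
        have h1 : (fwdS cs p hg).comp (tauS cs p) = SemidirectProduct.inr := by
          apply cs.ext_simple
          intro i
          show fwdS cs p hg (tauS cs p (cs.simple i)) = _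
          rw [tauS_simple, fwdS_tgS]
        exact fun w => DFunLike.congr_fun h1 w
      apply SemidirectProduct.hom_ext
      · apply Sh.hom_ext
        intro x
        obtain ⟨⟨w, s⟩, rfl⟩ := exists_mkR cs x
        show fwdS cs p hg (bwdS cs p hg (SemidirectProduct.inl
            (Sh.gen (hat cs) (ro cs p) (mkR cs w s)))) =
          SemidirectProduct.inl (Sh.gen (hat cs) (ro cs p) (mkR cs w s))
        unfold bwdS
        rw [SemidirectProduct.lift_inl, bShe_gen, bgenS_mkR, map_mul, map_mul, map_inv, hW, fwdS_sgS,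
          ← map_inv, ← SemidirectProduct.inl_aut, actS_gen, actR_mkR, mul_one]
      · apply MonoidHom.ext
        intro w
        show fwdS cs p hg (bwdS cs p hg (SemidirectProduct.inr w)) = SemidirectProduct.inr w
        unfold bwdS
        rw [SemidirectProduct.lift_inr, hW])

end iso

end Pool.Agent.H53.VS
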