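import Pool.Agent.H53.VS.Iso

/-!
Virtual Shephard groups in classes closed under subgroups, directed unions and extensions.
-/

set_option autoImplicit false

namespace Pool.Agent.H53.VS

open Pool.Agent.Helper741 Pool.Agent.TH107 CoxeterSystem Pool.Agent.X201.AT
open Pool.Agent.H53.VA Pool.Agent.R665.She
open Pool.Agent.R779.BC (ExtCl ext_hom)

variable {C : ∀ (G : Type) [Group G], Prop}

section

variable {B : Type} {M : CoxeterMatrix B} [Fintype B] [DecidableEq B]
variable {W : Type} [Group W] (cs : CoxeterSystem M W) (p : B → ℕ)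

theorem vs_sh (hC : ExtCl C) (hW : C W) (hg : Good M p) :
    C (VirtualShephard M p) ↔ C (Sh (hat cs) (ro cs p)) := by
  constructor
  · intro h
    refine hC.sub _ _ ((vsEquiv cs p hg).symm.toMonoidHom.comp
      (SemidirectProduct.inl (φ := actS cs p hg))) ?_ h
    exact (vsEquiv cs p hg).symm.injective.comp SemidirectProduct.inl_injective
  · intro h
    refine hC.sub _ _ (vsEquiv cs p hg).toMonoidHom (vsEquiv cs p hg).injective ?_
    refine ext_hom hC (SemidirectProduct.rightHom (φ := actS cs p hg)) ?_ hW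
    rw [← SemidirectProduct.range_inl_eq_ker_rightHom]
    exact hC.sub _ _ (MonoidHom.ofInjective
      (SemidirectProduct.inl_injective (φ := actS cs p hg))).symm.toMonoidHom
      (MulEquiv.injective _) h

/-- a family of roots with the pairwise relations of the Coxeter matrix `N`, and orders `q` -/
def ConfS {K : Type} (N : CoxeterMatrix K) (q : K → ℕ) (r : K → (B → ℝ)) : Prop :=
  ∀ i j, ∃ (w : W) (s t : B), N i j = M s t ∧ N i j ≠ 0 ∧ q i = p s ∧ q j = p t ∧
    r i = geo cs w (ee s) ∧ r j = geo cs w (ee t)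

theorem ConfS.conf {K : Type} {N : CoxeterMatrix K} {q : K → ℕ} {r : K → (B → ℝ)}
    (h : ConfS cs p N q r) : Conf cs N r := fun i j => by
  obtain ⟨w, s, t, h1, h2, -, -, h3, h4⟩ := h i j
  exact ⟨w, s, t, h1, h2, h3, h4⟩

theorem ConfS.good {K : Type} {N : CoxeterMatrix K} {q : K → ℕ} {r : K → (B → ℝ)}
    (h : ConfS cs p N q r) (hg : Good M p) : Good N q := by
  constructor
  · intro i
    obtain ⟨w, s, t, -, -, h3, -⟩ := h i i
    rw [h3]
    exact hg.1 s
  · intro i j hij
    obtain ⟨w, s, t, h1, -, h3, h4, -⟩ := h i j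
    rw [h3, h4]
    exact hg.2 s t (h1 ▸ hij)

/-- `K` has no partition into two nonempty sets with all labels between them equal to `2` -/
def IrrM {K : Type} (N : CoxeterMatrix K) : Prop :=
  ∀ X : Set K, X.Nonempty → Xᶜ.Nonempty → ∃ i ∈ X, ∃ j ∉ X, N i j ≠ 2

theorem conf_emb (hg : Good M p) {K : Type} (N : CoxeterMatrix K) (q : K → ℕ) (r : K → (B → ℝ))
    (hr : ConfS cs p N q r) : ∃ f : K → Rt cs, Function.Injective f ∧
      (∀ i j, hat cs (f i) (f j) = N i j) ∧ ∀ i, ro cs p (f i) = q i := by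
  have hrt : ∀ i, IsRt cs (r i) := fun i => by
    obtain ⟨w, s, t, -, -, -, -, h1, -⟩ := hr i i
    exact ⟨w, s, h1.symm⟩
  let f : K → Rt cs := fun i => ⟨r i, hrt i⟩
  have hlab : ∀ i j, hat cs (f i) (f j) = N i j := by
    intro i j
    obtain ⟨w, s, t, h1, -, -, -, h2, h3⟩ := hr i j
    have e1 : f i = mkR cs w s := Subtype.ext h2
    have e2 : f j = mkR cs w t := Subtype.ext h3
    rw [hat_apply, e1, e2, lb_mkR, h1]
  refine ⟨f, ?_, hlab, ?_⟩
  · intro i j hij
    by_contra hne
    have h1 := hlab i j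
    rw [hij] at h1
    exact N.off_diagonal i j hne (h1.symm.trans ((hat cs).diagonal _))
  · intro i
    obtain ⟨w, s, t, -, -, h4, -, h2, -⟩ := hr i i
    have e1 : f i = mkR cs w s := Subtype.ext h2
    rw [e1, ro_mkR cs p hg, h4]

/-- the Shephard groups of configurations are subgroups -/
theorem sh_of_conf (hC : ExtCl C) (hg : Good M p) (h : C (Sh (hat cs) (ro cs p))) {K : Type}
    (N : CoxeterMatrix K) (q : K → ℕ) (r : K → (B → ℝ)) (hr : ConfS cs p N q r) : C (Sh N q) := by
  obtain ⟨f, h1, h2, h3⟩ := conf_emb cs p hg N q r hr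
  exact hC.sub _ _ (hmS f h2 h3) (hmS_inj (good_hat cs p hg) f h1 h2 h3) h

theorem sh_conf (hC : ExtCl C)
    (hcox : ∀ (B : Type) [Finite B] (M : CoxeterMatrix B), C M.Group) (hg : Good M p) :
    C (Sh (hat cs) (ro cs p)) ↔ ∀ (K : Type) [Finite K] (N : CoxeterMatrix K) (q : K → ℕ)
      (r : K → (B → ℝ)), ConfS cs p N q r → IrrM N → C (Sh N q) := by
  constructor
  · intro h K _ N q r hr _
    exact sh_of_conf cs p hC hg h N q r hr
  · intro h
    refine BC.she_irr hC hcox (hat cs) (ro cs p) (good_hat cs p hg) fun T hT hI => ?_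
    have : Finite ((T : Set (Rt cs)) : Type) := T.finite_toSet.to_subtype
    refine h _ (subM (hat cs) (T : Set (Rt cs))) (fun t => ro cs p t.1) (fun t => t.1.1) ?_ ?_
    · intro i j
      have h2 : lb cs i.1 j.1 ≠ 0 := hT i.1 i.2 j.1 j.2
      obtain ⟨w, s, t, e1, e2, e3⟩ := lb_ne_zero cs h2
      refine ⟨w, s, t, e3, h2, ?_, ?_, congrArg Subtype.val e1, congrArg Subtype.val e2⟩
      · show ro cs p i.1 = p s
        rw [e1, ro_mkR cs p hg]
      · show ro cs p j.1 = p t
        rw [e2, ro_mkR cs p hg]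
    · intro X hX hX'
      obtain ⟨i, ⟨i', hi, rfl⟩, j, hj, hij⟩ := hI (Subtype.val '' X) (by
        rintro _ ⟨x, -, rfl⟩
        exact x.2) (hX.image _) (by
          obtain ⟨y, hy⟩ := hX'
          refine ⟨y.1, y.2, ?_⟩
          rintro ⟨z, hz, hzy⟩
          exact hy (by rwa [← Subtype.ext hzy]))
      refine ⟨i', hi, ⟨j, hj.1⟩, fun h' => hj.2 ⟨_, h', rfl⟩, hij⟩

end

section main

variable {B : Type} {M : CoxeterMatrix B} [Fintype B] [DecidableEq B] (p : B → ℕ)

/-- **the criterion** -/
theorem vs_conf (hC : ExtCl C)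
    (hcox : ∀ (B : Type) [Finite B] (M : CoxeterMatrix B), C M.Group) (hg : Good M p) :
    C (VirtualShephard M p) ↔ ∀ (K : Type) [Finite K] (N : CoxeterMatrix K) (q : K → ℕ)
      (r : K → (B → ℝ)), ConfS M.toCoxeterSystem p N q r → IrrM N → C (Sh N q) := by
  rw [vs_sh M.toCoxeterSystem p hC (hcox B M) hg, sh_conf M.toCoxeterSystem p hC hcox hg]

/-- the Shephard group is a subgroup -/
theorem sh_of_vs (hC : ExtCl C)
    (hcox : ∀ (B : Type) [Finite B] (M : CoxeterMatrix B), C M.Group) (hg : Good M p)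
    (h : C (VirtualShephard M p)) : C (Sh M p) := by
  rw [vs_sh M.toCoxeterSystem p hC (hcox B M) hg] at h
  exact hC.sub _ _ (hmS (mkR M.toCoxeterSystem 1) (fun i j => lb_mkR M.toCoxeterSystem 1 i j)
    (fun i => ro_mkR M.toCoxeterSystem p hg 1 i))
    (hmS_inj (good_hat M.toCoxeterSystem p hg) _ (fun i j hij => mkR_inj M.toCoxeterSystem hij) _ _) h

/-- for even labels, simple roots in the same orbit are equal -/
theorem even_type {W : Type} [Group W] (cs : CoxeterSystem M W)
    (hM : ∀ i j, i ≠ j → Even (M i j)) {w : W} {s t : B} (h : geo cs w (ee s) = ee t) : s = t := by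
  classical
  let F : B → ℤˣ := fun b => if b = t then -1 else 1
  have h1 := bh (cs := cs) (1 : W →* ℤˣ) F (fun i j hij h0 => by
    rw [if_pos (hM i j hij), mul_comm]) _ w s t rfl h
  rw [MonoidHom.one_apply, one_mul, mul_one] at h1
  by_contra hne
  have h3 : F s = 1 := if_neg hne
  have h4 : F t = -1 := if_pos rfl
  rw [h3, h4] at h1
  exact absurd h1 (by decide)

/-- **even labels** -/
theorem vs_even (hC : ExtCl C)
    (hcox : ∀ (B : Type) [Finite B] (M : CoxeterMatrix B), C M.Group) (hg : Good M p)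
    (hM : ∀ i j, i ≠ j → Even (M i j)) : C (VirtualShephard M p) ↔ C (Sh M p) := by
  refine ⟨sh_of_vs p hC hcox hg, fun h => ?_⟩
  rw [vs_conf p hC hcox hg]
  intro K _ N q r hr _
  have h1 : ∀ i, ∃ (w : M.Group) (s : B), q i = p s ∧ r i = geo M.toCoxeterSystem w (ee s) := by
    intro i
    obtain ⟨w, s, t, -, -, h1, -, h2, -⟩ := hr i i
    exact ⟨w, s, h1, h2⟩
  choose w f hq hf using h1
  have ht : ∀ i (v : M.Group) (s : B), r i = geo M.toCoxeterSystem v (ee s) → s = f i := by
    intro i v s hi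
    apply even_type M.toCoxeterSystem hM (w := (w i)⁻¹ * v)
    rw [← geo_geo, ← hi, hf i, geo_inv_apply]
  have hlab : ∀ i j, M (f i) (f j) = N i j := by
    intro i j
    obtain ⟨v, s, t, h1, -, -, -, h2, h3⟩ := hr i j
    rw [← ht i v s h2, ← ht j v t h3, h1]
  refine hC.sub _ _ (hmS f hlab fun i => (hq i).symm) (hmS_inj hg f (fun i j hij => ?_) hlab _) h
  by_contra hne
  have h2 := hlab i j
  rw [hij] at h2
  exact N.off_diagonal i j hne (h2.symm.trans (M.diagonal _))

/-- any three roots have two labels `2` -/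
theorem vs_loc (hC : ExtCl C) (hfin : ∀ (G : Type) [Group G] [Finite G], C G)
    (hcox : ∀ (B : Type) [Finite B] (M : CoxeterMatrix B), C M.Group) (hg : Good M p)
    (hM : ∀ (N : CoxeterMatrix (Fin 3)) (r : Fin 3 → (B → ℝ)), Conf M.toCoxeterSystem N r →
      N 0 1 = 2 ∨ N 1 2 = 2) : C (VirtualShephard M p) := by
  rw [vs_sh M.toCoxeterSystem p hC (hcox B M) hg]
  refine BC.she_loc hC hfin hcox _ _ (good_hat M.toCoxeterSystem p hg) ?_
  intro x y z hxy hyz hxz h1 h2 h3
  let e : Fin 3 → Rt M.toCoxeterSystem := ![x, y, z]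
  have he : Function.Injective e := by
    intro a b hab
    fin_cases a <;> fin_cases b <;>
      first
        | rfl
        | exact absurd hab hxy
        | exact absurd hab hyz
        | exact absurd hab hxz
        | exact absurd hab.symm hxy
        | exact absurd hab.symm hyz
        | exact absurd hab.symm hxz
  let N : CoxeterMatrix (Fin 3) :=
    { M := fun a b => hat M.toCoxeterSystem (e a) (e b)
      isSymm := by
        ext a b
        exact (hat M.toCoxeterSystem).symmetric _ _
      diagonal := fun a => (hat M.toCoxeterSystem).diagonal _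
      off_diagonal := fun a b hab => (hat M.toCoxeterSystem).off_diagonal _ _ fun h => hab (he h) }
  have hN : ∀ a b, hat M.toCoxeterSystem (e a) (e b) ≠ 0 := by
    intro a b
    have h1' := (hat M.toCoxeterSystem).symmetric x y
    have h2' := (hat M.toCoxeterSystem).symmetric y z
    have h3' := (hat M.toCoxeterSystem).symmetric x z
    have d : ∀ u, hat M.toCoxeterSystem u u ≠ 0 := fun u => by
      rw [(hat M.toCoxeterSystem).diagonal]
      exact one_ne_zero
    fin_cases a <;> fin_cases b <;>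
      first
        | exact d _
        | exact h1
        | exact h2
        | exact h3
        | exact h1' ▸ h1
        | exact h2' ▸ h2
        | exact h3' ▸ h3
  exact hM N (fun a => (e a).1) fun a b => by
    obtain ⟨w, s, t, e1, e2, e3⟩ := lb_ne_zero M.toCoxeterSystem (hN a b)
    exact ⟨w, s, t, e3, hN a b, congrArg Subtype.val e1, congrArg Subtype.val e2⟩

end main

section two

variable {K : Type} (N : CoxeterMatrix K) (q : K → ℕ)

theorem pow_of_alt {G : Type*} [Group G] {x y : G} (hx : x * x = 1) (hy : y * y = 1) {m : ℕ}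
    (h : alt x y m = alt y x m) : (x * y) ^ m = 1 := by
  have hyx : y * x = (x * y)⁻¹ := by
    rw [mul_inv_rev, inv_eq_of_mul_eq_one_right hx, inv_eq_of_mul_eq_one_right hy]
  rcases Nat.even_or_odd' m with ⟨k, rfl | rfl⟩
  · rw [alt_mul_two, alt_mul_two, hyx, inv_pow] at h
    rw [two_mul, pow_add]
    nth_rewrite 1 [h]
    rw [inv_mul_cancel]
  · rw [alt_mul_two_add_one, alt_mul_two_add_one, hyx, inv_pow] at h
    have h1 : (x * y) ^ k * (x * y) = ((x * y) ^ k)⁻¹ := by
      rw [← mul_assoc, h, mul_assoc, hy, mul_one]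
    rw [two_mul, add_assoc, pow_add, pow_succ, h1, mul_inv_cancel]

/-- the Shephard group with all orders two is the Coxeter group -/
theorem she_two (hq : ∀ i, q i = 2) : ∃ f : Sh N q →* N.Group, Function.Injective f := by
  have hsq : ∀ i, Sh.gen N q i * Sh.gen N q i = 1 := fun i => by
    have h1 := Sh.pow (M := N) (p := q) i
    rwa [hq, pow_two] at h1
  let f : Sh N q →* N.Group := Sh.lift N.simple (fun i j =>
      alt_comm_of_pow (N.toCoxeterSystem.simple_mul_simple_self i)
        (N.toCoxeterSystem.simple_mul_simple_self j) (N.toCoxeterSystem.simple_mul_simple_pow i j))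
    (fun i => by
      rw [hq, pow_two]
      exact N.toCoxeterSystem.simple_mul_simple_self i)
  let g : N.Group →* Sh N q := N.toCoxeterSystem.lift ⟨Sh.gen N q, fun i j =>
    pow_of_alt (hsq i) (hsq j) (Sh.rel i j)⟩
  refine ⟨f, ?_⟩
  have hgf : g.comp f = MonoidHom.id _ := by
    apply Sh.hom_ext
    intro i
    show g (f (Sh.gen N q i)) = Sh.gen N q i
    have h1 : f (Sh.gen N q i) = N.toCoxeterSystem.simple i := Sh.lift_gen _ _ _ i
    rw [h1]
    exact N.toCoxeterSystem.lift_apply_simple (f := Sh.gen N q) _ i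
  intro a b hab
  have e1 := DFunLike.congr_fun hgf a
  have e2 := DFunLike.congr_fun hgf b
  rw [MonoidHom.comp_apply, hab] at e1
  exact e1.symm.trans e2

end two

section main2

variable {B : Type} {M : CoxeterMatrix B} [Fintype B] [DecidableEq B] (p : B → ℕ)

/-- **flat virtual Artin groups** -/
theorem vs_flat (hC : ExtCl C)
    (hcox : ∀ (B : Type) [Finite B] (M : CoxeterMatrix B), C M.Group) (hp : ∀ i, p i = 2) :
    C (VirtualShephard M p) := by
  have hg : Good M p := ⟨fun i => by rw [hp]; decide, fun i j _ => by rw [hp, hp]⟩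
  rw [vs_conf p hC hcox hg]
  intro K _ N q r hr _
  obtain ⟨f, hf⟩ := she_two N q fun i => by
    obtain ⟨w, s, t, -, -, h1, -⟩ := hr i i
    rw [h1, hp]
  exact hC.sub _ _ f hf (hcox K N)

end main2

end Pool.Agent.H53.VS
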